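import Pool.Agent.Lib.MP_5e7226_co.TR.Cross

set_option autoImplicit false

/-! Bodies with the rotations of a tetrahedron: the theorem. -/

namespace Pool.Agent.Lib.MP_5e7226_co.TR

open Finset
open Pool.Agent.Lib.MP_5e7226_co.DX (Works swp co fu GK pairing sum_co co_sum)
open Pool.Agent.Lib.MP_5e7226_co.HX (Body compact_GK one_GK le_GK illum_dirs sep_of_works lt_max)
open Pool.Agent.Lib.MP_5e7226_co.RG (IsCrossBody IsAffineCube IlluminatedBy SeparatedBy Good bas bas_apply)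

/-- The eight sign vectors. -/
def z8 : Fin 8 → Fin 3 → ℝ :=
  ![![1, 1, 1], ![1, 1, -1], ![1, -1, 1], ![1, -1, -1], ![-1, 1, 1], ![-1, 1, -1], ![-1, -1, 1], ![-1, -1, -1]]

theorem z8_of_sg {s : Fin 3 → ℝ} (hs : ∀ i, Sg (s i)) : ∃ n, z8 n = s := by
  have key : ∀ a c e : ℝ, s 0 = a → s 1 = c → s 2 = e → (∃ n, z8 n = ![a, c, e]) → ∃ n, z8 n = s := by
    rintro a c e h0 h1 h2 ⟨n, hn⟩
    exact ⟨n, by rw [hn, ← vec3 s h0 h1 h2]⟩
  rcases hs 0 with h0 | h0 <;> rcases hs 1 with h1 | h1 <;> rcases hs 2 with h2 | h2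
  · exact key _ _ _ h0 h1 h2 ⟨0, rfl⟩
  · exact key _ _ _ h0 h1 h2 ⟨1, rfl⟩
  · exact key _ _ _ h0 h1 h2 ⟨2, rfl⟩
  · exact key _ _ _ h0 h1 h2 ⟨3, rfl⟩
  · exact key _ _ _ h0 h1 h2 ⟨4, rfl⟩
  · exact key _ _ _ h0 h1 h2 ⟨5, rfl⟩
  · exact key _ _ _ h0 h1 h2 ⟨6, rfl⟩
  · exact key _ _ _ h0 h1 h2 ⟨7, rfl⟩

/-- In the case of the cube the eight sign vectors serve all points. -/
theorem cube8 {G : Set ((Fin 3 → ℝ) × (Fin 3 → ℝ))} (hG : DualT G) {h : ℝ} (hc : CubeT G h) :
    ∀ q ∈ G, ∃ n, Works G q.1 (z8 n) := by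
  obtain ⟨hh, hmax, ⟨p, hp, hpt, hpp⟩, ⟨q, hq, hqt, hqq⟩⟩ := hc
  -- all sign vectors are bounded
  have hle : ∀ r ∈ G, ∀ s : Fin 3 → ℝ, (∀ i, Sg (s i)) → h * (s 0 * r.2 0 + s 1 * r.2 1 + s 2 * r.2 2) ≤ 1 := by
    intro r hr s hs
    have key : ∀ w : (Fin 3 → ℝ) × (Fin 3 → ℝ), w ∈ G → (∀ i, |w.1 i| = h) →
        0 < (s 0 * s 1 * s 2) * (w.1 0 * w.1 1 * w.1 2) → h * (s 0 * r.2 0 + s 1 * r.2 1 + s 2 * r.2 2) ≤ 1 := by
      intro w hw hwt hpos
      obtain ⟨σ, hσ, hσr⟩ := exists_sg w.1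
      have hri : ∀ i, w.1 i = σ i * h := by
        intro i
        have h1 := hσr i
        have h2 : |σ i * w.1 i| = h := by
          rw [← hwt i, abs_mul]
          rcases hσ i with h' | h' <;> rw [h'] <;> simp
        rw [abs_of_nonneg h1] at h2
        rw [← h2, ← mul_assoc, (hσ i).sq, one_mul]
      have hprod : (s 0 * σ 0) * (s 1 * σ 1) * (s 2 * σ 2) = 1 := by
        have hS : Sg ((s 0 * σ 0) * (s 1 * σ 1) * (s 2 * σ 2)) :=
          (((hs 0).mul (hσ 0)).mul ((hs 1).mul (hσ 1))).mul ((hs 2).mul (hσ 2))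
        rcases hS with h' | h'
        · exact h'
        · exfalso
          rw [hri 0, hri 1, hri 2] at hpos
          have e : (s 0 * s 1 * s 2) * (σ 0 * h * (σ 1 * h) * (σ 2 * h)) =
              ((s 0 * σ 0) * (s 1 * σ 1) * (s 2 * σ 2)) * (h * h * h) := by ring
          rw [e, h'] at hpos
          have := mul_pos (mul_pos hh hh) hh
          linarith
      have h1 := (hG.le r hr w hw _ _ _ ((hs 0).mul (hσ 0)) ((hs 1).mul (hσ 1)) ((hs 2).mul (hσ 2)) hprod).1
      rw [hri 0, hri 1, hri 2] at h1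
      have e : h * (s 0 * r.2 0 + s 1 * r.2 1 + s 2 * r.2 2) =
          r.2 0 * (s 0 * σ 0 * (σ 0 * h)) + r.2 1 * (s 1 * σ 1 * (σ 1 * h)) + r.2 2 * (s 2 * σ 2 * (σ 2 * h)) := by
        calc _ = 1 * (h * (s 0 * r.2 0)) + 1 * (h * (s 1 * r.2 1)) + 1 * (h * (s 2 * r.2 2)) := by ring
          _ = (σ 0 * σ 0) * (h * (s 0 * r.2 0)) + (σ 1 * σ 1) * (h * (s 1 * r.2 1)) +
              (σ 2 * σ 2) * (h * (s 2 * r.2 2)) := by rw [(hσ 0).sq, (hσ 1).sq, (hσ 2).sq]
          _ = _ := by ring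
      rw [e]
      exact h1
    have hS : Sg (s 0 * s 1 * s 2) := ((hs 0).mul (hs 1)).mul (hs 2)
    rcases hS with h' | h'
    · exact key q hq hqt (by rw [h']; linarith)
    · exact key p hp hpt (by rw [h']; linarith)
  intro r hr
  obtain ⟨s, hs, hsx⟩ := exists_sg r.1
  obtain ⟨n, hn⟩ := z8_of_sg hs
  refine ⟨n, ?_⟩
  intro u hu
  rw [hn, Fin.sum_univ_three]
  have hone := hG.one _ hu
  simp only at hone
  -- the absolute values
  obtain ⟨σ, hσ, hσu⟩ := exists_sg u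
  have h1 := hle _ hu σ hσ
  simp only at h1
  have ha : ∀ i, 0 ≤ s i * r.1 i ∧ s i * r.1 i ≤ h := by
    intro i
    refine ⟨hsx i, ?_⟩
    have h2 := abs_le.1 (hmax r hr i)
    rcases hs i with h' | h' <;> rw [h'] <;> linarith
  -- each term: u i * x i <= h * |u i|, with the sign of u i
  have hterm : ∀ i, u i * r.1 i ≤ h * (σ i * u i) ∧ (s i * u i < 0 → u i * r.1 i < h * (σ i * u i)) := by
    intro i
    obtain ⟨a1, a2⟩ := ha i
    have b1 := hσu i
    have e1 : u i * r.1 i = (s i * u i) * (s i * r.1 i) := by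
      calc u i * r.1 i = (s i * s i) * (u i * r.1 i) := by rw [(hs i).sq, one_mul]
        _ = _ := by ring
    have e2 : s i * u i ≤ σ i * u i ∧ (s i * u i < 0 → 0 < σ i * u i) := by
      rcases hs i with h' | h' <;> rcases hσ i with h'' | h'' <;> rw [h''] at b1 <;> rw [h', h''] <;>
        exact ⟨by linarith, fun hneg => by linarith⟩
    rw [e1]
    have e3 : (s i * u i) * (s i * r.1 i) ≤ (σ i * u i) * (s i * r.1 i) := mul_le_mul_of_nonneg_right e2.1 a1
    have e4 : (σ i * u i) * (s i * r.1 i) ≤ (σ i * u i) * h := mul_le_mul_of_nonneg_left a2 b1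
    refine ⟨by linarith, fun hneg => ?_⟩
    have e5 : (s i * u i) * (s i * r.1 i) ≤ 0 := mul_nonpos_of_nonpos_of_nonneg hneg.le a1
    have e6 : 0 < h * (σ i * u i) := mul_pos hh (e2.2 hneg)
    linarith
  have hnn : ∀ i, 0 ≤ s i * u i := by
    intro i
    by_contra hneg
    push Not at hneg
    have t0 := hterm 0
    have t1 := hterm 1
    have t2 := hterm 2
    fin_cases i
    · have := t0.2 hneg
      linarith [t1.1, t2.1]
    · have := t1.2 hneg
      linarith [t0.1, t2.1]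
    · have := t2.2 hneg
      linarith [t0.1, t1.1]
  have n0 := hnn 0
  have n1 := hnn 1
  have n2 := hnn 2
  by_contra hcon
  push Not at hcon
  have z : ∀ i, s i * u i = 0 → u i = 0 := by
    intro i hi
    rcases mul_eq_zero.1 hi with h' | h'
    · have := (hs i).sq
      rw [h'] at this
      norm_num at this
    · exact h'
  have z0 := z 0 (by linarith)
  have z1 := z 1 (by linarith)
  have z2 := z 2 (by linarith)
  rw [z0, z1, z2] at hone
  norm_num at hone

/-- `K` is invariant about `o` under the rotations of a tetrahedron. -/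
def TetK (K : Set E3) (o : E3) (b : Fin 3 → E3) : Prop :=
  LinearIndependent ℝ b ∧
    (∀ x y z : ℝ, o + (x • b 0 + y • b 1 + z • b 2) ∈ K → o + (x • b 0 - y • b 1 - z • b 2) ∈ K) ∧
      ∀ x y z : ℝ, o + (x • b 0 + y • b 1 + z • b 2) ∈ K → o + (x • b 1 + y • b 2 + z • b 0) ∈ K

theorem symB_of_tetK {K : Set E3} {o : E3} {b : Fin 3 → E3} (h : TetK K o b) :
    SymB (bas h.1) o K := by
  have e : ∀ x : Fin 3 → ℝ, pt (bas h.1) o x = o + (x 0 • b 0 + x 1 • b 1 + x 2 • b 2) := by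
    intro x
    unfold pt
    rw [Fin.sum_univ_three]
    simp only [bas_apply]
  refine ⟨?_, ?_⟩
  · intro x hx
    rw [e] at hx ⊢
    have h1 := h.2.1 _ _ _ hx
    convert h1 using 2
    simp only [Matrix.cons_val_zero, Matrix.cons_val_one, Matrix.cons_val]
    module
  · intro x hx
    rw [e] at hx ⊢
    have h1 := h.2.2 _ _ _ hx
    convert h1 using 2
    simp only [Matrix.cons_val_zero, Matrix.cons_val_one, Matrix.cons_val]
    module

theorem illum_of {b : Module.Basis (Fin 3) ℝ E3} {o : E3} {K : Set E3} (hK : Body o K) {N : ℕ}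
    (h : ∃ z : Fin N → Fin 3 → ℝ, ∀ q ∈ GK b o K, ∃ n, Works (GK b o K) q.1 (z n)) : IlluminatedBy K N := by
  obtain ⟨z, hz⟩ := h
  exact HX.points_of_dirs hK.compact (illum_dirs hK z hz)

theorem sep_of {b : Module.Basis (Fin 3) ℝ E3} {o : E3} {K : Set E3} (hK : Body o K) {N : ℕ}
    (h : ∃ z : Fin N → Fin 3 → ℝ, ∀ q ∈ swp (GK b o K), ∃ n, Works (swp (GK b o K)) q.1 (z n)) :
    SeparatedBy K o N := by
  obtain ⟨z, hz⟩ := h
  exact sep_to_hyperplanes hK.compact o (sep_of_works hK z hz (by simp))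

/-- Six hyperplanes or a cross-body, six points or a parallelepiped. -/
theorem main6 {K : Set E3} {o : E3} {b : Fin 3 → E3} (hconv : Convex ℝ K) (hcomp : IsCompact K)
    (hint : (interior K).Nonempty) (h : TetK K o b) :
    (SeparatedBy K o 6 ∨ IsCrossBody K o) ∧ (IlluminatedBy K 6 ∨ IsAffineCube K) := by
  have hS := symB_of_tetK h
  have hK := center hconv hcomp hint hS
  have hG := dualT_GK hK hS
  constructor
  · rcases coreT hG.swap with ⟨t, ht⟩ | hz
    · exact Or.inr (cross_end hK hS ht)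
    · exact Or.inl (sep_of hK hz)
  · rcases coreT hG with ⟨t, ht⟩ | hz
    · exact Or.inr (cube_end hK hS ht)
    · exact Or.inl (illum_of hK hz)

/-- From `6` or an exception and the bound `8` for the exceptions. -/
theorem sep_mono {K : Set E3} {o : E3} {m n : ℕ} (hmn : m ≤ n) (h : SeparatedBy K o m) : SeparatedBy K o n := by
  obtain ⟨w, c, hw⟩ := h
  refine ⟨fun i => if h : (i : ℕ) < m then w ⟨i, h⟩ else 0,
    fun i => if h : (i : ℕ) < m then c ⟨i, h⟩ else 0, fun u x₀ hu hx₀ hmax => ?_⟩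
  obtain ⟨i, h1, h2⟩ := hw u x₀ hu hx₀ hmax
  refine ⟨⟨i, by omega⟩, ?_, fun x hx hux => ?_⟩
  · simpa using h1
  · simpa using h2 x hx hux

theorem illum_mono {K : Set E3} {m n : ℕ} (hm : 0 < m) (hmn : m ≤ n) (h : IlluminatedBy K m) :
    IlluminatedBy K n := by
  obtain ⟨p, hp, hq⟩ := h
  refine ⟨fun i => if h : (i : ℕ) < m then p ⟨i, h⟩ else p ⟨0, hm⟩, fun i => ?_, fun q hqK => ?_⟩
  · dsimp only
    split_ifs
    · exact hp _
    · exact hp _
  · obtain ⟨i, s, hs, h1⟩ := hq q hqK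
    refine ⟨⟨i, by omega⟩, s, hs, ?_⟩
    simpa using h1

/-- Both parts of the conjecture. -/
theorem good {K : Set E3} {o : E3} {b : Fin 3 → E3} (hconv : Convex ℝ K) (hcomp : IsCompact K)
    (hint : (interior K).Nonempty) (h : TetK K o b) : Good K o := by
  have hS := symB_of_tetK h
  have hK := center hconv hcomp hint hS
  have hG := dualT_GK hK hS
  refine ⟨?_, ?_, ?_, ?_⟩
  · rcases coreT hG.swap with ⟨t, ht⟩ | hz
    · exact sep_of (N := 8) hK ⟨z8, cube8 hG.swap ht⟩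
    · exact sep_mono (by norm_num) (sep_of hK hz)
  · intro hn
    rcases (main6 hconv hcomp hint h).1 with h' | h'
    · exact absurd (sep_mono (by norm_num) h') hn
    · exact h'
  · rcases coreT hG with ⟨t, ht⟩ | hz
    · exact illum_of (N := 8) hK ⟨z8, cube8 hG ht⟩
    · exact illum_mono (by norm_num) (by norm_num) (illum_of hK hz)
  · intro hn
    rcases (main6 hconv hcomp hint h).2 with h' | h'
    · exact absurd (illum_mono (by norm_num) (by norm_num) h') hn
    · exact h'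

end Pool.Agent.Lib.MP_5e7226_co.TR
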