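import Pool.Agent.Lib.MP_5e7226_co.TR.C3

set_option autoImplicit false

/-! Bodies with the rotations of a tetrahedron: case I (no edge, all normals at the diagonal points are
nonnegative), the family `Q`. -/

namespace Pool.Agent.Lib.MP_5e7226_co.TR

open Pool.Agent.Lib.MP_5e7226_co.DX (Works swp)

/-- The family `Q`. -/
noncomputable def zQ : Fin 6 → Fin 3 → ℝ :=
  ![![1, 1 / 2, 0], ![1 / 2, -1, 0], ![-1, -(1 / 2), 0], ![-(1 / 2), 1, 0], ![0, 0, 1], ![0, 0, -1]]

/-- A normal with one nonzero entry bounds all the coordinates of all points. -/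
theorem DualT.single {G : Set ((Fin 3 → ℝ) × (Fin 3 → ℝ))} (hG : DualT G) {x u : Fin 3 → ℝ} (hx : (x, u) ∈ G)
    {i j k : Fin 3} (hij : i ≠ j) (hjk : j ≠ k) (hik : i ≠ k) (hi : u i = 0) (hk : u k = 0)
    {q : (Fin 3 → ℝ) × (Fin 3 → ℝ)} (hq : q ∈ G) (m : Fin 3) {e : ℝ} (he : Sg e) : u j * (e * q.1 m) ≤ 1 := by
  rcases all3 i j k m hij hjk hik with hm | hm | hm
  · subst hm
    have := hG.rot hx hq (i := k) (j := m) (k := j) hik.symm hij hjk.symm (e1 := 1) (e2 := e) (e3 := e) sg_one he he
      (by rw [one_mul, he.sq])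
    simp only at this
    rw [hi, hk] at this
    have h2 := hG.rot hx hq (i := j) (j := m) (k := k) hij.symm hik hjk (e1 := e) (e2 := 1) (e3 := e) he sg_one he
      (by rw [mul_one, he.sq])
    simp only at h2
    rw [hi, hk] at h2
    linarith
  · subst hm
    have := hG.sgn hx hq hij hjk hik (e1 := e) (e2 := e) (e3 := 1) he he sg_one (by rw [mul_one, he.sq])
    simp only at this
    rw [hi, hk] at this
    linarith
  · subst hm
    have h2 := hG.rot hx hq (i := j) (j := m) (k := i) hjk hik.symm hij.symm (e1 := e) (e2 := 1) (e3 := e) he sg_one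
      he (by rw [mul_one, he.sq])
    simp only at h2
    rw [hi, hk] at h2
    linarith

/-- Case I. -/
theorem caseI {G : Set ((Fin 3 → ℝ) × (Fin 3 → ℝ))} (hG : DualT G) {h : ℝ}
    (hmax : ∀ q ∈ G, ∀ i, |q.1 i| ≤ h) (hatt : ∃ q ∈ G, ∃ i, |q.1 i| = h)
    (hedge : ∀ q ∈ G, ∀ i j : Fin 3, i ≠ j → |q.1 i| = h → |q.1 j| ≠ h)
    (hdiag : ∀ x u, (x, u) ∈ G → ∀ s : Fin 3 → ℝ, (∀ i, Sg (s i)) → ∀ t, 0 < t → (∀ i, s i * x i = t) →
      ∀ i, 0 ≤ s i * u i) :
    ∀ q ∈ G, ∃ n, Works G q.1 (zQ n) := by
  have habs : ∀ (e r : ℝ), Sg e → |e * r| = |r| := by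
    intro e r he
    rcases he with h' | h' <;> rw [h'] <;> simp
  have hsx_le : ∀ x u, (x, u) ∈ G → ∀ s : Fin 3 → ℝ, (∀ i, Sg (s i)) → ∀ i, s i * x i ≤ h := by
    intro x u hx s hs i
    have g := hmax _ hx i
    simp only at g
    rw [← habs (s i) (x i) (hs i)] at g
    exact (abs_le.1 g).2
  -- no normal with one nonzero entry at a point with a second large coordinate
  have hno : ∀ x u, (x, u) ∈ G → ∀ s : Fin 3 → ℝ, (∀ i, Sg (s i)) → ∀ i j k : Fin 3, i ≠ j → j ≠ k → i ≠ k →
      s i * u i = 0 → s k * u k = 0 → s j * x j ≤ s i * x i → 0 < s j * x j →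
      (s j * x j) * (s j * u j) = 1 → False := by
    intro x u hx s hs i j k hij hjk hik h1 h2 h3 hpos h4
    have z : ∀ m, s m * u m = 0 → u m = 0 := by
      intro m hm
      rcases mul_eq_zero.1 hm with h' | h'
      · have := (hs m).sq
        rw [h'] at this
        norm_num at this
      · exact h'
    obtain ⟨q, hq, m, hm⟩ := hatt
    have hUj : 0 < s j * u j := by
      by_contra hn
      push Not at hn
      nlinarith [mul_nonpos_of_nonneg_of_nonpos hpos.le hn]
    obtain ⟨e, he, hem⟩ : ∃ e, Sg e ∧ e * q.1 m = h := by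
      rcases abs_choice (q.1 m) with h' | h'
      · exact ⟨1, sg_one, by rw [one_mul, ← hm, h']⟩
      · exact ⟨-1, sg_neg_one, by rw [← hm, h']; ring⟩
    have g := hG.single hx hij hjk hik (z i h1) (z k h2) hq m ((hs j).mul he)
    have g2 : (s j * u j) * h ≤ 1 := by
      rw [← hem]
      linarith
    have g3 : h ≤ s j * x j := by
      rw [← h4] at g2
      have : (s j * u j) * h ≤ (s j * u j) * (s j * x j) := by linarith
      exact le_of_mul_le_mul_left this hUj
    have g4 := hsx_le x u hx s hs i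
    have a1 : |x j| = h := by
      rw [← habs (s j) (x j) (hs j), abs_of_pos hpos]
      exact le_antisymm (hsx_le x u hx s hs j) g3
    have a2 : |x i| = h := by
      rw [← habs (s i) (x i) (hs i), abs_of_pos (by linarith)]
      exact le_antisymm g4 (by linarith)
    exact hedge _ hx i j hij a2 a1
  -- strict positivity of P
  have hPpos : ∀ x u, (x, u) ∈ G → ∀ s : Fin 3 → ℝ, (∀ i, Sg (s i)) → ∀ i j k : Fin 3, i ≠ j → j ≠ k → i ≠ k →
      Six (s i * x i) (s j * x j) (s k * x k) (s i * u i) (s j * u j) (s k * u k) →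
      s k * x k < s i * x i → 0 < s i * u i := by
    intro x u hx s hs i j k hij hjk hik h6 hAC
    rcases (h6.P_nonneg hAC).lt_or_eq with h' | h'
    · exact h'
    · exfalso
      obtain ⟨e1, e2, e3, e4⟩ := h6.P_zero hAC h'.symm
      exact hno x u hx s hs i j k hij hjk hik h'.symm e2 h6.hAB e4 e3
  intro q hq
  obtain ⟨x, u0⟩ := q
  simp only
  obtain ⟨s, hs, hsx⟩ := exists_sg x
  -- the three candidates
  have hz1 : (∀ u, (x, u) ∈ G → 0 < s 0 * u 0 + (s 0 * s 1) * (s 1 * u 1) / 2) → ∃ n, Works G x (zQ n) := by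
    intro H
    rcases hs 0 with h0 | h0
    · refine ⟨0, ?_⟩
      intro u hu
      have := H u hu
      have h1 := (hs 1).sq
      rw [Fin.sum_univ_three]
      simp [zQ]
      rw [h0] at this
      have : 1 * u 0 + 1 * s 1 * (s 1 * u 1) / 2 = u 0 + (s 1 * s 1) * u 1 / 2 := by ring
      rw [h1] at this
      linarith
    · refine ⟨2, ?_⟩
      intro u hu
      have := H u hu
      have h1 := (hs 1).sq
      rw [Fin.sum_univ_three]
      simp [zQ]
      rw [h0] at this
      have : -1 * u 0 + -1 * s 1 * (s 1 * u 1) / 2 = -u 0 - (s 1 * s 1) * u 1 / 2 := by ring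
      rw [h1] at this
      linarith
  have hz2 : (∀ u, (x, u) ∈ G → 0 < s 1 * u 1 - (s 0 * s 1) * (s 0 * u 0) / 2) → ∃ n, Works G x (zQ n) := by
    intro H
    rcases hs 1 with h0 | h0
    · refine ⟨3, ?_⟩
      intro u hu
      have := H u hu
      have h1 := (hs 0).sq
      rw [Fin.sum_univ_three]
      simp [zQ]
      rw [h0] at this
      have : 1 * u 1 - s 0 * 1 * (s 0 * u 0) / 2 = u 1 - (s 0 * s 0) * u 0 / 2 := by ring
      rw [h1] at this
      linarith
    · refine ⟨1, ?_⟩
      intro u hu
      have := H u hu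
      have h1 := (hs 0).sq
      rw [Fin.sum_univ_three]
      simp [zQ]
      rw [h0] at this
      have : -1 * u 1 - s 0 * -1 * (s 0 * u 0) / 2 = -u 1 + (s 0 * s 0) * u 0 / 2 := by ring
      rw [h1] at this
      linarith
  have hz3 : (∀ u, (x, u) ∈ G → 0 < s 2 * u 2) → ∃ n, Works G x (zQ n) := by
    intro H
    rcases hs 2 with h0 | h0
    · refine ⟨4, ?_⟩
      intro u hu
      have := H u hu
      rw [Fin.sum_univ_three]
      simp [zQ]
      rw [h0] at this
      linarith
    · refine ⟨5, ?_⟩
      intro u hu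
      have := H u hu
      rw [Fin.sum_univ_three]
      simp [zQ]
      rw [h0] at this
      linarith
  have hσ : s 0 * s 1 = 1 ∨ s 0 * s 1 = -1 := (hs 0).mul (hs 1)
  obtain ⟨i, j, k, hij, hjk, hik, h1, h2⟩ := exists_sort (fun i => s i * x i)
  have hA : 0 < s i * x i := by
    rcases (hsx i).lt_or_eq with h' | h'
    · exact h'
    · exfalso
      have h6 := hG.six hq hs hsx hij hjk hik h1 h2
      have e1 : s j * x j = 0 := le_antisymm (by linarith) (hsx j)
      have e2 : s k * x k = 0 := le_antisymm (by linarith) (hsx k)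
      have := h6.one
      rw [← h', e1, e2] at this
      norm_num at this
  rcases lt_or_ge (s k * x k) (s i * x i) with hAC | hAC
  swap
  · -- diagonal
    have ht : ∀ m, s m * x m = s i * x i := by
      intro m
      rcases all3 i j k m hij hjk hik with h' | h' | h' <;> rw [h'] <;> linarith
    have key : ∀ u, (x, u) ∈ G → 0 ≤ s 0 * u 0 ∧ 0 ≤ s 1 * u 1 ∧ ¬ (s 0 * u 0 = 0 ∧ s 1 * u 1 = 0) := by
      intro u hu
      have g := hdiag x u hu s hs _ hA ht
      refine ⟨g 0, g 1, ?_⟩
      rintro ⟨z0, z1⟩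
      have hone : (s 2 * x 2) * (s 2 * u 2) = 1 := by
        have h := hG.one _ hu
        simp only at h
        have w0 : u 0 * x 0 = 0 := by
          rcases mul_eq_zero.1 z0 with h' | h'
          · have := (hs 0).sq
            rw [h'] at this
            norm_num at this
          · rw [h', zero_mul]
        have w1 : u 1 * x 1 = 0 := by
          rcases mul_eq_zero.1 z1 with h' | h'
          · have := (hs 1).sq
            rw [h'] at this
            norm_num at this
          · rw [h', zero_mul]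
        rw [w0, w1] at h
        calc _ = (s 2 * s 2) * (u 2 * x 2) := by ring
          _ = 1 := by rw [(hs 2).sq]; linarith
      exact hno x u hu s hs 0 2 1 (by decide) (by decide) (by decide) z0 z1 (by rw [ht 0, ht 2])
        (by rw [ht 2]; exact hA) hone
    rcases hσ with h' | h'
    · apply hz1
      intro u hu
      obtain ⟨g0, g1, g2⟩ := key u hu
      rw [h']
      rcases g0.lt_or_eq with g | g
      · linarith
      · rcases g1.lt_or_eq with g' | g'
        · linarith
        · exact absurd ⟨g.symm, g'.symm⟩ g2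
    · apply hz2
      intro u hu
      obtain ⟨g0, g1, g2⟩ := key u hu
      rw [h']
      rcases g0.lt_or_eq with g | g
      · linarith
      · rcases g1.lt_or_eq with g' | g'
        · linarith
        · exact absurd ⟨g.symm, g'.symm⟩ g2
  -- not diagonal
  by_cases hi : i = 2
  · subst hi
    apply hz3
    intro u hu
    exact hPpos x u hu s hs 2 j k hij hjk hik (hG.six hu hs hsx hij hjk hik h1 h2) hAC
  by_cases hj : j = 2
  · -- the coordinate 2 is in the middle
    subst hj
    rcases lt_or_ge (s 2 * x 2) (s i * x i) with hAB | hAB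
    swap
    · -- tie with the largest
      apply hz3
      intro u hu
      exact hPpos x u hu s hs 2 i k hij.symm hik hjk (hG.six hu hs hsx hij.symm hik hjk hAB (by linarith))
        (by linarith)
    have hR : ∀ u, (x, u) ∈ G → 0 < s i * u i - s k * u k / 2 ∧ 0 < s i * u i + s k * u k / 2 := by
      intro u hu
      have h6 := hG.six hu hs hsx hij hjk hik h1 h2
      exact ⟨h6.v2m hAB, h6.v2p hAB⟩
    have hik' : (i = 0 ∧ k = 1) ∨ (i = 1 ∧ k = 0) := by
      revert hi hij hjk hik
      clear * -
      revert i k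
      decide
    rcases hik' with ⟨hi0, hk1⟩ | ⟨hi0, hk1⟩
    · subst hi0 hk1
      apply hz1
      intro u hu
      have := hR u hu
      rcases hσ with h' | h' <;> rw [h'] <;> linarith [this.1, this.2]
    · subst hi0 hk1
      apply hz2
      intro u hu
      have := hR u hu
      rcases hσ with h' | h' <;> rw [h'] <;> linarith [this.1, this.2]
  -- the coordinate 2 is the smallest
  have hk2 : k = 2 := by
    rcases all3 i j k 2 hij hjk hik with h' | h' | h'
    · exact absurd h'.symm hi
    · exact absurd h'.symm hj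
    · exact h'.symm
  subst hk2
  rcases (h2 : s 2 * x 2 ≤ s j * x j).lt_or_eq with hBC | hBC
  swap
  · -- tie: j and 2 may be exchanged
    have hAB : s 2 * x 2 < s i * x i := hAC
    have hR : ∀ u, (x, u) ∈ G → 0 < s i * u i - s j * u j / 2 ∧ 0 < s i * u i + s j * u j / 2 := by
      intro u hu
      have h6 := hG.six hu hs hsx hik hjk.symm hij hAC.le (by linarith)
      exact ⟨h6.v2m hAB, h6.v2p hAB⟩
    have hij' : (i = 0 ∧ j = 1) ∨ (i = 1 ∧ j = 0) := by
      revert hi hij hjk hik hj
      clear * -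
      revert i j
      decide
    rcases hij' with ⟨hi0, hk1⟩ | ⟨hi0, hk1⟩
    · subst hi0 hk1
      apply hz1
      intro u hu
      have := hR u hu
      rcases hσ with h' | h' <;> rw [h'] <;> linarith [this.1, this.2]
    · subst hi0 hk1
      apply hz2
      intro u hu
      have := hR u hu
      rcases hσ with h' | h' <;> rw [h'] <;> linarith [this.1, this.2]
  have hB : 0 < s j * x j := lt_of_le_of_lt (hsx 2) hBC
  have h3 : ∀ u, (x, u) ∈ G → 0 < s i * u i + s j * u j / 2 := fun u hu =>
    (hG.six hu hs hsx hij hjk hik h1 h2).v3 hAC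
  have h4a : (s j * x j) * (2 * (s j * x j) - s i * x i) < (s 2 * x 2) ^ 2 →
      ∀ u, (x, u) ∈ G → 0 < s i * u i - s j * u j / 2 := fun hx' u hu =>
    (hG.six hu hs hsx hij hjk hik h1 h2).v4a hAC hx'
  have h4b : (s 2 * x 2) ^ 2 ≤ (s j * x j) * (2 * (s j * x j) - s i * x i) →
      ∀ u, (x, u) ∈ G → 0 < s i * u i / 2 + s j * u j := fun hx' u hu =>
    (hG.six hu hs hsx hij hjk hik h1 h2).v4b hAC hB hx'
  have hij' : (i = 0 ∧ j = 1) ∨ (i = 1 ∧ j = 0) := by
    revert hi hij hjk hik hj
    clear * -
    revert i j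
    decide
  rcases hij' with ⟨hi0, hk1⟩ | ⟨hi0, hk1⟩
  · subst hi0 hk1
    rcases hσ with h' | h'
    · apply hz1
      intro u hu
      have := h3 u hu
      rw [h']
      linarith
    · rcases lt_or_ge ((s 1 * x 1) * (2 * (s 1 * x 1) - s 0 * x 0)) ((s 2 * x 2) ^ 2) with g | g
      · apply hz1
        intro u hu
        have := h4a g u hu
        rw [h']
        linarith
      · apply hz2
        intro u hu
        have := h4b g u hu
        rw [h']
        linarith
  · subst hi0 hk1
    rcases hσ with h' | h'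
    · rcases lt_or_ge ((s 0 * x 0) * (2 * (s 0 * x 0) - s 1 * x 1)) ((s 2 * x 2) ^ 2) with g | g
      · apply hz2
        intro u hu
        have := h4a g u hu
        rw [h']
        linarith
      · apply hz1
        intro u hu
        have := h4b g u hu
        rw [h']
        linarith
    · apply hz2
      intro u hu
      have := h3 u hu
      rw [h']
      linarith

end Pool.Agent.Lib.MP_5e7226_co.TR
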