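import Pool.Agent.Lib.MP_5e7226_co.TR.Cov

set_option autoImplicit false

/-! Bodies with the rotations of a tetrahedron: the cases II (a diagonal point with a normal which has a
negative entry) and III (an edge, not the cube). -/

namespace Pool.Agent.Lib.MP_5e7226_co.TR

open Pool.Agent.Lib.MP_5e7226_co.DX (Works swp)

theorem caseII_real {A B C P Wa Wb v α β tau : ℝ} (hA : 0 < A) (hC : 0 ≤ C) (hBC : C ≤ B) (hv : 0 < v)
    (hα : v ≤ α) (hαβ : α + β = Wa + Wb) (htau : tau = Wa + Wb - v)
    (h1 : (Wa + Wb) * A + (α + v) * B + (v + β) * C ≤ 2) (h2 : 2 * P ≤ tau) (h3 : 1 ≤ (A + C) * P) : False := by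
  have e1 : (α + v) * C ≤ (α + v) * B := mul_le_mul_of_nonneg_left hBC (by linarith)
  have e2 : (A + C) * (2 * P) ≤ (A + C) * tau := mul_le_mul_of_nonneg_left h2 (by linarith)
  rw [htau] at e2
  have e3 : (α + v) * C + (v + β) * C = (Wa + Wb + 2 * v) * C := by rw [← hαβ]; ring
  nlinarith [mul_pos hv hA, mul_nonneg hv.le hC]

theorem third : ∀ i c : Fin 3, i ≠ c → ∃ k : Fin 3, k ≠ c ∧ i ≠ k := by
  decide

theorem other2 : ∀ i j k n : Fin 3, i ≠ j → j ≠ k → i ≠ k → n ≠ i → n = j ∨ n = k := by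
  decide

theorem all3 : ∀ i j k n : Fin 3, i ≠ j → j ≠ k → i ≠ k → n = i ∨ n = j ∨ n = k := by
  decide

/-- Case II. -/
theorem caseII {G : Set ((Fin 3 → ℝ) × (Fin 3 → ℝ))} (hG : DualT G) {p w : Fin 3 → ℝ} (hp : (p, w) ∈ G)
    {σ : Fin 3 → ℝ} (hσ : ∀ i, Sg (σ i)) {t : ℝ} (ht : 0 < t) (hpt : ∀ i, σ i * p i = t) {c : Fin 3}
    (hc : σ c * w c < 0) : ∀ q ∈ G, ∃ n, Works G q.1 (zF (σ 0 * σ 1 * σ 2) n) := by
  set κ := σ 0 * σ 1 * σ 2 with hκdef
  have hκ : Sg κ := ((hσ 0).mul (hσ 1)).mul (hσ 2)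
  -- the point p
  have hpi : ∀ i, p i = σ i * t := by
    intro i
    rw [← hpt i, ← mul_assoc, (hσ i).sq, one_mul]
  -- the orbit of p
  have K1 : ∀ x u, (x, u) ∈ G → ∀ e : Fin 3 → ℝ, (∀ i, Sg (e i)) → e 0 * e 1 * e 2 = κ →
      t * (e 0 * u 0 + e 1 * u 1 + e 2 * u 2) ≤ 1 := by
    intro x u hx e he hprod
    have h := hG.sgn hx hp (i := 0) (j := 1) (k := 2) (by decide) (by decide) (by decide)
      ((he 0).mul (hσ 0)) ((he 1).mul (hσ 1)) ((he 2).mul (hσ 2)) (by
        calc _ = (e 0 * e 1 * e 2) * (σ 0 * σ 1 * σ 2) := by ring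
          _ = 1 := by rw [hprod, ← hκdef, hκ.sq])
    simp only at h
    rw [hpi 0, hpi 1, hpi 2] at h
    calc _ = u 0 * (e 0 * 1 * t) + u 1 * (e 1 * 1 * t) + u 2 * (e 2 * 1 * t) := by ring
      _ = u 0 * (e 0 * (σ 0 * σ 0) * t) + u 1 * (e 1 * (σ 1 * σ 1) * t) + u 2 * (e 2 * (σ 2 * σ 2) * t) := by
          rw [(hσ 0).sq, (hσ 1).sq, (hσ 2).sq]
      _ = u 0 * (e 0 * σ 0 * (σ 0 * t)) + u 1 * (e 1 * σ 1 * (σ 1 * t)) + u 2 * (e 2 * σ 2 * (σ 2 * t)) := by
          ring
      _ ≤ 1 := h
  have K1' : ∀ x u, (x, u) ∈ G → ∀ e : Fin 3 → ℝ, (∀ i, Sg (e i)) → e 0 * e 1 * e 2 = κ →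
      ∀ {i j k : Fin 3}, i ≠ j → j ≠ k → i ≠ k → t * (e i * u i + e j * u j + e k * u k) ≤ 1 := by
    intro x u hx e he hprod i j k hij hjk hik
    have h1 := K1 x u hx e he hprod
    have h2 := sum3 hij hjk hik (fun n => e n * u n)
    rw [Fin.sum_univ_three] at h2
    rw [← h2]
    exact h1
  -- the normal w against the orbit of x, rotated
  have K2r : ∀ x u, (x, u) ∈ G → ∀ s : Fin 3 → ℝ, (∀ i, Sg (s i)) → ∀ δ1 δ2 δ3 : ℝ, Sg δ1 → Sg δ2 → Sg δ3 →
      δ1 * δ2 * δ3 = κ * (s 0 * s 1 * s 2) → ∀ {i j k : Fin 3}, i ≠ j → j ≠ k → i ≠ k →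
      δ1 * ((σ i * w i) * (s j * x j)) + δ2 * ((σ j * w j) * (s k * x k)) +
        δ3 * ((σ k * w k) * (s i * x i)) ≤ 1 := by
    intro x u hx s hs δ1 δ2 δ3 h1 h2 h3 hδ i j k hij hjk hik
    have hsP : Sg (s 0 * s 1 * s 2) := ((hs 0).mul (hs 1)).mul (hs 2)
    have h := hG.rot hp hx hij hjk hik (h1.mul ((hσ i).mul (hs j))) (h2.mul ((hσ j).mul (hs k)))
      (h3.mul ((hσ k).mul (hs i))) (by
        calc _ = (δ1 * δ2 * δ3) * ((σ i * σ j * σ k) * (s i * s j * s k)) := by ring
          _ = (κ * κ) * ((s 0 * s 1 * s 2) * (s 0 * s 1 * s 2)) := by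
              rw [hδ, prod3 hij hjk hik σ, prod3 hij hjk hik s]; ring
          _ = 1 := by rw [hκ.sq, hsP.sq, one_mul])
    simp only at h
    linarith
  have K2s : ∀ x u, (x, u) ∈ G → ∀ s : Fin 3 → ℝ, (∀ i, Sg (s i)) → ∀ δ1 δ2 δ3 : ℝ, Sg δ1 → Sg δ2 → Sg δ3 →
      δ1 * δ2 * δ3 = κ * (s 0 * s 1 * s 2) → ∀ {i j k : Fin 3}, i ≠ j → j ≠ k → i ≠ k →
      δ1 * ((σ i * w i) * (s i * x i)) + δ2 * ((σ j * w j) * (s j * x j)) +
        δ3 * ((σ k * w k) * (s k * x k)) ≤ 1 := by
    intro x u hx s hs δ1 δ2 δ3 h1 h2 h3 hδ i j k hij hjk hik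
    have hsP : Sg (s 0 * s 1 * s 2) := ((hs 0).mul (hs 1)).mul (hs 2)
    have h := hG.sgn hp hx hij hjk hik (h1.mul ((hσ i).mul (hs i))) (h2.mul ((hσ j).mul (hs j)))
      (h3.mul ((hσ k).mul (hs k))) (by
        calc _ = (δ1 * δ2 * δ3) * ((σ i * σ j * σ k) * (s i * s j * s k)) := by ring
          _ = (κ * κ) * ((s 0 * s 1 * s 2) * (s 0 * s 1 * s 2)) := by
              rw [hδ, prod3 hij hjk hik σ, prod3 hij hjk hik s]; ring
          _ = 1 := by rw [hκ.sq, hsP.sq, one_mul])
    simp only at h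
    linarith
  -- the values of w
  have hWt : t * (σ 0 * w 0 + σ 1 * w 1 + σ 2 * w 2) = 1 := by
    have h := hG.one _ hp
    simp only at h
    rw [hpi 0, hpi 1, hpi 2] at h
    linarith
  have hpair : ∀ i, i ≠ c → -(σ c * w c) ≤ σ i * w i := by
    intro i hi
    obtain ⟨k, hk1, hk2⟩ := third i c hi
    have h := hG.sgn hp hp hi (Ne.symm hk1) hk2 sg_neg_one sg_neg_one sg_one (by norm_num)
    have h1 := hG.one' hp hi (Ne.symm hk1) hk2
    simp only at h h1
    rw [hpi i, hpi c, hpi k] at h h1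
    have : 0 ≤ t * (σ i * w i + σ c * w c) := by linarith
    have := nonneg_of_mul_nonneg_right this ht
    linarith
  -- names: a, b the other two indices
  obtain ⟨a, b, hab, hbc, hac⟩ : ∃ a b : Fin 3, a ≠ b ∧ b ≠ c ∧ a ≠ c := by
    have : ∀ c : Fin 3, ∃ a b : Fin 3, a ≠ b ∧ b ≠ c ∧ a ≠ c := by decide
    exact this c
  set v := -(σ c * w c) with hvdef
  have hv : 0 < v := by linarith
  have hWa := hpair a hac
  have hWb := hpair b hbc
  have hWt' : t * (σ a * w a + σ b * w b - v) = 1 := by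
    have h2 := sum3 hab hbc hac (fun n => σ n * w n)
    rw [Fin.sum_univ_three] at h2
    rw [h2] at hWt
    rw [hvdef]
    linarith
  have le_tau : ∀ X : ℝ, t * X ≤ 1 → X ≤ σ a * w a + σ b * w b - v := by
    intro X hX
    rw [← hWt'] at hX
    exact le_of_mul_le_mul_left hX ht
  refine coverF hG hκ ?_ ?_ ?_
  · -- x = (A, 0, 0)
    intro x u hx s hs hprod i j k hij hjk hik hA hj hk
    have hAU : (s i * x i) * (s i * u i) = 1 := by
      have h := hG.one' hx hij hjk hik
      simp only at h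
      rw [hj, hk] at h
      calc _ = (s i * s i) * (u i * x i) := by ring
        _ = 1 := by rw [(hs i).sq]; linarith
    -- any value of w is at most U_i
    have hw : ∀ m, σ m * w m ≤ s i * u i := by
      intro m
      have hle : (s i * x i) * (σ m * w m) ≤ 1 := by
        by_cases hm : m = i
        · subst hm
          have h := hG.sgn hp hx hij hjk hik ((hσ m).mul (hs m)) ((hσ m).mul (hs m)) sg_one (by
            have := ((hσ m).mul (hs m)).sq
            rw [this, one_mul])
          simp only at h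
          rw [hj, hk] at h
          linarith
        · obtain ⟨n, hn1, hn2⟩ := third i m (Ne.symm hm)
          have hz : ∀ n, n ≠ i → x n = 0 := by
            intro n hn
            rcases other2 i j k n hij hjk hik hn with h' | h' <;> rw [h'] <;> assumption
          have hxn : x n = 0 ∧ x m = 0 := ⟨hz n (Ne.symm hn2), hz m hm⟩
          have h := hG.rot hp hx hn2 hn1 (Ne.symm hm) ((hσ m).mul (hs i)) sg_one ((hσ m).mul (hs i)) (by
            have := ((hσ m).mul (hs i)).sq
            rw [mul_one, this])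
          simp only at h
          rw [hxn.1, hxn.2] at h
          linarith
      rw [← hAU] at hle
      exact le_of_mul_le_mul_left hle hA
    have hwa := hw a
    have hwb := hw b
    -- K1
    have hs' : ∀ m, Sg ((fun m => if m = i then s m else -s m) m) := by
      intro m
      by_cases h : m = i
      · simp only [h, if_true]
        exact hs i
      · simp only [h, if_false]
        exact (hs m).neg
    have h1 := K1' x u hx _ hs' (by
      have e1 := prod3 hij hjk hik (fun m => if m = i then s m else -s m)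
      have e2 := prod3 hij hjk hik s
      simp only at e1
      simp only [← e1, if_true, hij.symm, hik.symm, if_false]
      rw [hprod] at e2
      linarith) hij hjk hik
    simp only [if_true, hij.symm, hik.symm, if_false] at h1
    have h2 := le_tau _ h1
    linarith
  · -- diagonal
    intro x u hx s hs hprod T hT hall
    have hone : T * (s 0 * u 0 + s 1 * u 1 + s 2 * u 2) = 1 := by
      have h := hG.one _ hx
      simp only at h
      have hxi : ∀ i, x i = s i * T := by
        intro i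
        rw [← hall i, ← mul_assoc, (hs i).sq, one_mul]
      rw [hxi 0, hxi 1, hxi 2] at h
      linarith
    have h2 := K2s x u hx s hs 1 1 (-1) sg_one sg_one sg_neg_one (by
      rw [hprod]
      have := hκ.sq
      linarith) hab hbc hac
    rw [hall a, hall b, hall c] at h2
    have h3 : T * (σ a * w a + σ b * w b + v) ≤ T * (s 0 * u 0 + s 1 * u 1 + s 2 * u 2) := by
      rw [hone, hvdef]
      linarith
    have h4 := le_of_mul_le_mul_left h3 hT
    have hs' : ∀ m, Sg ((fun m => if m = 0 then -s m else s m) m) := by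
      intro m
      by_cases h : m = 0
      · simp only [h, if_true]
        exact (hs 0).neg
      · simp only [h, if_false]
        exact hs m
    have h1 := K1 x u hx _ hs' (by
      simp
      linarith)
    simp at h1
    have h5 := le_tau _ h1
    linarith
  · -- the flip
    intro x u hx s hs hprod i j k hij hjk hik hC hAC h6 hR
    obtain ⟨hBA, hQ, hRP, hP, hsum⟩ := h6.flip hAC hR
    have hA : 0 < s i * x i := lt_trans hC hAC
    have hs' : ∀ m, Sg ((fun m => if m = j then -s m else s m) m) := by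
      intro m
      by_cases h : m = j
      · simp only [h, if_true]
        exact (hs j).neg
      · simp only [h, if_false]
        exact hs m
    have h1 := K1' x u hx _ hs' (by
      have e1 := prod3 hij hjk hik (fun m => if m = j then -s m else s m)
      have e2 := prod3 hij hjk hik s
      simp only at e1
      simp only [← e1, if_true, hij, hjk.symm, if_false]
      rw [hprod] at e2
      linarith) hij hjk hik
    simp only [if_true, hij, hjk.symm, if_false] at h1
    have h2 := le_tau _ h1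
    have h2P : 2 * (s i * u i) ≤ σ a * w a + σ b * w b - v := by linarith
    have hδ : ∀ δ1 δ2 δ3 : ℝ, δ1 * δ2 * δ3 = -1 → δ1 * δ2 * δ3 = κ * (s 0 * s 1 * s 2) := by
      intro δ1 δ2 δ3 h
      rw [h, hprod]
      have := hκ.sq
      linarith
    have hB : s k * x k ≤ s j * x j := h6.hBC
    -- the index of the negative entry against the sorted indices
    have hcase : c = i ∨ c = j ∨ c = k := all3 i j k c hij hjk hik
    have hWW : ∀ n m : Fin 3, n ≠ m → n ≠ c → m ≠ c → σ n * w n + σ m * w m = σ a * w a + σ b * w b := by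
      intro n m hnm hn hm
      have e1 := sum3 hab hbc hac (fun n => σ n * w n)
      have e2 := sum3 hnm hm hn (fun n => σ n * w n)
      linarith
    rcases hcase with h | h | h
    · subst h
      have r1 := K2r x u hx s hs (-1) 1 1 sg_neg_one sg_one sg_one (hδ _ _ _ (by norm_num)) hij hjk hik
      have r2 := K2r x u hx s hs (-1) 1 1 sg_neg_one sg_one sg_one (hδ _ _ _ (by norm_num)) hik hjk.symm hij
      have e := hWW j k hjk hij.symm hik.symm
      refine caseII_real (α := σ k * w k) (β := σ j * w j) hA hC.le hB hv (hpair k hik.symm) (by linarith) rfl ?_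
        h2P hsum
      rw [← e]
      linarith
    · subst h
      have r1 := K2s x u hx s hs 1 (-1) 1 sg_one sg_neg_one sg_one (hδ _ _ _ (by norm_num)) hij hjk hik
      have r2 := K2r x u hx s hs (-1) 1 1 sg_neg_one sg_one sg_one (hδ _ _ _ (by norm_num)) hjk hik.symm hij.symm
      have e := hWW i k hik hij hjk.symm
      refine caseII_real (α := σ i * w i) (β := σ k * w k) hA hC.le hB hv (hpair i hij) (by linarith) rfl ?_
        h2P hsum
      rw [← e]
      linarith
    · subst h
      have r1 := K2s x u hx s hs 1 1 (-1) sg_one sg_one sg_neg_one (hδ _ _ _ (by norm_num)) hij hjk hik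
      have r2 := K2r x u hx s hs (-1) 1 1 sg_neg_one sg_one sg_one (hδ _ _ _ (by norm_num)) hjk.symm hij.symm hik.symm
      have e := hWW i j hij hik hjk
      refine caseII_real (α := σ j * w j) (β := σ i * w i) hA hC.le hB hv (hpair j hjk) (by linarith) rfl ?_
        h2P hsum
      rw [← e]
      linarith


end Pool.Agent.Lib.MP_5e7226_co.TR
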