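import Pool.Agent.Lib.MP_5e7226_co.TR.C23

set_option autoImplicit false

/-! Bodies with the rotations of a tetrahedron: case III (an edge, not the cube). -/

namespace Pool.Agent.Lib.MP_5e7226_co.TR

open Pool.Agent.Lib.MP_5e7226_co.DX (Works swp)

/-- Case III. `y = q0.1` has the absolute value `h` at the indices different from `k0`. -/
theorem caseIII {G : Set ((Fin 3 → ℝ) × (Fin 3 → ℝ))} (hG : DualT G) {h : ℝ} (hh : 0 < h)
    (hmax : ∀ q ∈ G, ∀ i, |q.1 i| ≤ h) {q0 : (Fin 3 → ℝ) × (Fin 3 → ℝ)} (hq0 : q0 ∈ G) {k0 : Fin 3}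
    {τ : Fin 3 → ℝ} (hτ : ∀ i, Sg (τ i)) (hτ1 : τ 0 * τ 1 * τ 2 = 1) (hτh : ∀ i, i ≠ k0 → τ i * q0.1 i = h)
    {κ : ℝ} (hκ : Sg κ) (hκG : ∀ q ∈ G, (∀ i, |q.1 i| = h) → 0 < κ * (q.1 0 * q.1 1 * q.1 2)) :
    ∀ q ∈ G, ∃ n, Works G q.1 (zF κ n) := by
  set b := τ k0 * q0.1 k0 with hb
  have hy : ∀ i, i ≠ k0 → q0.1 i = τ i * h := by
    intro i hi
    rw [← hτh i hi, ← mul_assoc, (hτ i).sq, one_mul]
  have hyk : q0.1 k0 = τ k0 * b := by
    rw [hb, ← mul_assoc, (hτ k0).sq, one_mul]
  have habs : ∀ (e r : ℝ), Sg e → |e * r| = |r| := by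
    intro e r he
    rcases he with h' | h' <;> rw [h'] <;> simp
  have hbh : |b| ≤ h := by
    have := hmax q0 hq0 k0
    rw [hyk, habs _ _ (hτ k0)] at this
    exact this
  have hkb : 0 < h + κ * b := by
    have h1 : |κ * b| ≤ h := by rw [habs _ _ hκ]; exact hbh
    have h2 := (abs_le.1 h1).1
    rcases (show 0 ≤ h + κ * b by linarith).lt_or_eq with h3 | h3
    · exact h3
    · exfalso
      have hkb' : κ * b = -h := by linarith
      have hall : ∀ i, |q0.1 i| = h := by
        intro i
        by_cases hi : i = k0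
        · rw [hi, hyk, habs _ _ (hτ k0), ← habs κ b hκ, hkb', abs_neg, abs_of_pos hh]
        · rw [hy i hi, habs _ _ (hτ i), abs_of_pos hh]
      have h4 := hκG q0 hq0 hall
      obtain ⟨i0, j0, h01, h02, h03⟩ : ∃ a b : Fin 3, a ≠ b ∧ b ≠ k0 ∧ a ≠ k0 := by
        have : ∀ c : Fin 3, ∃ a b : Fin 3, a ≠ b ∧ b ≠ c ∧ a ≠ c := by decide
        exact this k0
      rw [← prod3 h01 h02 h03 q0.1, hy i0 h03, hy j0 h02, hyk] at h4
      have h5 := prod3 h01 h02 h03 τ
      rw [hτ1] at h5
      have h6 : κ * (τ i0 * h * (τ j0 * h) * (τ k0 * b)) = (τ i0 * τ j0 * τ k0) * (κ * b) * (h * h) := by ring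
      rw [h6, h5, hkb'] at h4
      nlinarith [mul_pos hh hh, mul_pos hh (mul_pos hh hh)]
  -- the inequality (E)
  have E : ∀ x u, (x, u) ∈ G → ∀ {i j k : Fin 3}, i ≠ j → j ≠ k → i ≠ k → ∀ e1 e2 : ℝ, Sg e1 → Sg e2 →
      h * (e1 * u i + e2 * u j) + e1 * e2 * b * u k ≤ 1 := by
    intro x u hx i j k hij hjk hik e1 e2 h1 h2
    have h12 : (e1 * e2) * (e1 * e2) = 1 := (h1.mul h2).sq
    have hτp := prod3 hij hjk hik τ
    rw [hτ1] at hτp
    have hti : ∀ i, i ≠ k0 → τ i * q0.1 i = h := hτh
    rcases all3 i j k k0 hij hjk hik with hk | hk | hk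
    · have g := hG.rot hx hq0 hij hjk hik (h1.mul (hτ j)) (h2.mul (hτ k)) ((h1.mul h2).mul (hτ i)) (by
        calc _ = ((e1 * e2) * (e1 * e2)) * (τ i * τ j * τ k) := by ring
          _ = 1 := by rw [h12, hτp, one_mul])
      simp only at g
      have g1 := hti j (by rw [hk]; exact hij.symm)
      have g2 := hti k (by rw [hk]; exact hik.symm)
      calc _ = u i * (e1 * h) + u j * (e2 * h) + u k * (e1 * e2 * b) := by ring
        _ = u i * (e1 * (τ j * q0.1 j)) + u j * (e2 * (τ k * q0.1 k)) + u k * (e1 * e2 * (τ k0 * q0.1 k0)) := by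
            rw [g1, g2, hb]
        _ = u i * (e1 * τ j * q0.1 j) + u j * (e2 * τ k * q0.1 k) + u k * (e1 * e2 * τ i * q0.1 i) := by
            rw [hk]; ring
        _ ≤ 1 := g
    · have g := hG.rot hx hq0 hij.symm hik hjk (h2.mul (hτ i)) (h1.mul (hτ k)) ((h1.mul h2).mul (hτ j)) (by
        calc _ = ((e1 * e2) * (e1 * e2)) * (τ i * τ j * τ k) := by ring
          _ = 1 := by rw [h12, hτp, one_mul])
      simp only at g
      have g1 := hti i (by rw [hk]; exact hij)
      have g2 := hti k (by rw [hk]; exact hjk.symm)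
      calc _ = u j * (e2 * h) + u i * (e1 * h) + u k * (e1 * e2 * b) := by ring
        _ = u j * (e2 * (τ i * q0.1 i)) + u i * (e1 * (τ k * q0.1 k)) + u k * (e1 * e2 * (τ k0 * q0.1 k0)) := by
            rw [g1, g2, hb]
        _ = u j * (e2 * τ i * q0.1 i) + u i * (e1 * τ k * q0.1 k) + u k * (e1 * e2 * τ j * q0.1 j) := by
            rw [hk]; ring
        _ ≤ 1 := g
    · have g := hG.sgn hx hq0 hij hjk hik (h1.mul (hτ i)) (h2.mul (hτ j)) ((h1.mul h2).mul (hτ k)) (by
        calc _ = ((e1 * e2) * (e1 * e2)) * (τ i * τ j * τ k) := by ring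
          _ = 1 := by rw [h12, hτp, one_mul])
      simp only at g
      have g1 := hti i (by rw [hk]; exact hik)
      have g2 := hti j (by rw [hk]; exact hjk)
      calc _ = u i * (e1 * h) + u j * (e2 * h) + u k * (e1 * e2 * b) := by ring
        _ = u i * (e1 * (τ i * q0.1 i)) + u j * (e2 * (τ j * q0.1 j)) + u k * (e1 * e2 * (τ k0 * q0.1 k0)) := by
            rw [g1, g2, hb]
        _ = u i * (e1 * τ i * q0.1 i) + u j * (e2 * τ j * q0.1 j) + u k * (e1 * e2 * τ k * q0.1 k) := by
            rw [hk]; ring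
        _ ≤ 1 := g
  -- (E) with the signs of x
  have E' : ∀ x u, (x, u) ∈ G → ∀ s : Fin 3 → ℝ, (∀ i, Sg (s i)) → ∀ π : ℝ, s 0 * s 1 * s 2 = π →
      ∀ {i j k : Fin 3}, i ≠ j → j ≠ k → i ≠ k →
      h * (s i * u i + s j * u j) + π * b * (s k * u k) ≤ 1 := by
    intro x u hx s hs π hπ i j k hij hjk hik
    have g := E x u hx hij hjk hik (s i) (s j) (hs i) (hs j)
    have e1 := prod3 hij hjk hik s
    have e2 : s i * s j = π * s k := by
      rw [← hπ, ← e1]
      calc s i * s j = s i * s j * (s k * s k) := by rw [(hs k).sq, mul_one]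
        _ = _ := by ring
    rw [e2] at g
    linarith
  have hsx_le : ∀ x u, (x, u) ∈ G → ∀ s : Fin 3 → ℝ, (∀ i, Sg (s i)) → ∀ i, s i * x i ≤ h := by
    intro x u hx s hs i
    have g := hmax _ hx i
    simp only at g
    rw [← habs (s i) (x i) (hs i)] at g
    exact (abs_le.1 g).2
  refine coverF hG hκ ?_ ?_ ?_
  · -- x = (A, 0, 0)
    intro x u hx s hs hprod i j k hij hjk hik hA hj hk
    have hAU : (s i * x i) * (s i * u i) = 1 := by
      have h := hG.one' hx hij hjk hik
      simp only at h
      rw [hj, hk] at h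
      calc _ = (s i * s i) * (u i * x i) := by ring
        _ = 1 := by rw [(hs i).sq]; linarith
    have hU : 0 < s i * u i := by
      by_contra hn
      push Not at hn
      nlinarith [mul_nonpos_of_nonneg_of_nonpos hA.le hn]
    have g1 := E' x u hx s hs κ hprod hij hjk hik
    have g1' := E' x u hx s hs κ hprod hik hjk.symm hij
    -- with the sign of j changed (and the parity): the same with -
    have g2 := E x u hx hij hjk hik (s i) (-s j) (hs i) (hs j).neg
    have g2' := E x u hx hik hjk.symm hij (s i) (-s k) (hs i) (hs k).neg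
    have e1 := prod3 hij hjk hik s
    rw [hprod] at e1
    have e2 : s i * s j = κ * s k := by
      rw [← e1]
      calc s i * s j = s i * s j * (s k * s k) := by rw [(hs k).sq, mul_one]
        _ = _ := by ring
    have e3 : s i * s k = κ * s j := by
      rw [← e1]
      calc s i * s k = s i * s k * (s j * s j) := by rw [(hs j).sq, mul_one]
        _ = _ := by ring
    have g3 : h * (s i * u i - s j * u j) - κ * b * (s k * u k) ≤ 1 := by
      have : s i * -s j * b * u k = -(κ * b * (s k * u k)) := by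
        calc _ = -((s i * s j) * b * u k) := by ring
          _ = _ := by rw [e2]; ring
      rw [this] at g2
      linarith
    have g3' : h * (s i * u i - s k * u k) - κ * b * (s j * u j) ≤ 1 := by
      have : s i * -s k * b * u j = -(κ * b * (s j * u j)) := by
        calc _ = -((s i * s k) * b * u j) := by ring
          _ = _ := by rw [e3]; ring
      rw [this] at g2'
      linarith
    have hle := hsx_le x u hx s hs i
    have hhU : h * (s i * u i) ≤ 1 := by linarith
    have hhU' : h * (s i * u i) = 1 := by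
      refine le_antisymm hhU ?_
      rw [← hAU]
      exact mul_le_mul_of_nonneg_right hle hU.le
    have z1 : h * (s j * u j) + κ * b * (s k * u k) = 0 := by
      refine le_antisymm (by linarith) (by linarith)
    have z2 : h * (s k * u k) + κ * b * (s j * u j) = 0 := by
      refine le_antisymm (by linarith) (by linarith)
    have z3 : (h + κ * b) * (s j * u j + s k * u k) = 0 := by linarith
    have z4 : s j * u j + s k * u k = 0 := by
      rcases mul_eq_zero.1 z3 with h' | h'
      · exact absurd h' hkb.ne'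
      · exact h'
    linarith
  · -- diagonal
    intro x u hx s hs hprod T hT hall
    have hxi : ∀ i, x i = s i * T := by
      intro i
      rw [← hall i, ← mul_assoc, (hs i).sq, one_mul]
    have hone : T * (s 0 * u 0 + s 1 * u 1 + s 2 * u 2) = 1 := by
      have h := hG.one _ hx
      simp only at h
      rw [hxi 0, hxi 1, hxi 2] at h
      linarith
    have hTh : T < h := by
      have h1 := hsx_le x u hx s hs 0
      rw [hall 0] at h1
      rcases h1.lt_or_eq with h2 | h2
      · exact h2
      · exfalso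
        have h3 := hκG _ hx (by
          intro i
          simp only
          rw [hxi i, habs _ _ (hs i), abs_of_pos hT, h2])
        simp only at h3
        rw [hxi 0, hxi 1, hxi 2] at h3
        have h4 : κ * (s 0 * T * (s 1 * T) * (s 2 * T)) = κ * (s 0 * s 1 * s 2) * (T * (T * T)) := by ring
        rw [h4, hprod] at h3
        have h5 : κ * -κ = -1 := by
          have := hκ.sq
          linarith
        rw [h5] at h3
        have := mul_pos hT (mul_pos hT hT)
        linarith
    have g := E' x u hx s hs (-κ) hprod (i := 1) (j := 2) (k := 0) (by decide) (by decide) (by decide)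
    have d1 : 0 ≤ T * (s 0 * u 0 + s 1 * u 1) := by
      have h1 := hG.sgn hx hx (i := 0) (j := 1) (k := 2) (by decide) (by decide) (by decide)
        sg_neg_one sg_neg_one sg_one (by norm_num)
      simp only at h1
      rw [hxi 0, hxi 1, hxi 2] at h1
      linarith
    have d2 : 0 ≤ T * (s 0 * u 0 + s 2 * u 2) := by
      have h1 := hG.sgn hx hx (i := 0) (j := 1) (k := 2) (by decide) (by decide) (by decide)
        sg_neg_one sg_one sg_neg_one (by norm_num)
      simp only at h1
      rw [hxi 0, hxi 1, hxi 2] at h1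
      linarith
    have d1' := nonneg_of_mul_nonneg_right d1 hT
    have d2' := nonneg_of_mul_nonneg_right d2 hT
    by_contra hn
    push Not at hn
    have f1 : (h - T) * (s 1 * u 1 + s 2 * u 2) ≤ (T + κ * b) * (s 0 * u 0) := by linarith
    have f2 : (h - T) * (-(2 * (s 0 * u 0))) ≤ (h - T) * (s 1 * u 1 + s 2 * u 2) :=
      mul_le_mul_of_nonneg_left (by linarith) (by linarith)
    have f3 : 0 ≤ ((h - T) + (h + κ * b)) * (s 0 * u 0) := by linarith
    have f4 : s 0 * u 0 = 0 := by
      by_contra hne
      have : s 0 * u 0 < 0 := lt_of_le_of_ne hn hne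
      have := mul_neg_of_pos_of_neg (show 0 < (h - T) + (h + κ * b) by linarith) this
      linarith
    rw [f4] at f1 hone
    have f5 : s 1 * u 1 + s 2 * u 2 ≤ 0 := by
      by_contra hp
      push Not at hp
      have := mul_pos (show 0 < h - T by linarith) hp
      linarith
    have f6 : T * (s 1 * u 1 + s 2 * u 2) ≤ 0 := mul_nonpos_of_nonneg_of_nonpos hT.le f5
    linarith
  · -- the flip
    intro x u hx s hs hprod i j k hij hjk hik hC hAC h6 hR
    obtain ⟨hBA, hQ, hRP, hP, -⟩ := h6.flip hAC hR
    have hB : 0 < s j * x j := lt_of_lt_of_le hC h6.hBC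
    have hsum := h6.sum_pos hB
    have hR0 : 0 < s k * u k := by linarith
    have g := E' x u hx s hs (-κ) hprod hik hjk.symm hij
    have hle := hsx_le x u hx s hs i
    have hone := h6.one
    have f1 : (h - s i * x i) * (s i * u i) + (h - s k * x k) * (s k * u k) ≤
        (s j * x j + κ * b) * (s j * u j) := by linarith
    have f2 : 0 ≤ (h - s i * x i) * (s i * u i) := mul_nonneg (by linarith) hP.le
    have f3 : (h - s k * x k) * (s k * u k) ≤ (s j * x j + κ * b) * (s j * u j) := by linarith
    have hCh : 0 < h - s k * x k := by linarith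
    have f4 : -(s j * u j) ≤ s k * u k := by
      have h1 := h6.dbc
      have h2 : (s k * x k) * (-(s j * u j)) ≤ (s j * x j) * (-(s j * u j)) :=
        mul_le_mul_of_nonneg_right h6.hBC (by linarith)
      have h3 : (s k * x k) * (-(s j * u j)) ≤ (s k * x k) * (s k * u k) := by linarith
      exact le_of_mul_le_mul_left h3 hC
    have f5 : (h - s k * x k) * (-(s j * u j)) ≤ (h - s k * x k) * (s k * u k) :=
      mul_le_mul_of_nonneg_left f4 hCh.le
    have f6 : 0 ≤ ((h + κ * b) + (s j * x j - s k * x k)) * (s j * u j) := by linarith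
    have f7 : s j * u j = 0 := by
      by_contra hne
      have : s j * u j < 0 := lt_of_le_of_ne hQ hne
      have := mul_neg_of_pos_of_neg (show 0 < (h + κ * b) + (s j * x j - s k * x k) by linarith [h6.hBC]) this
      linarith
    rw [f7] at f3
    have := mul_pos hCh hR0
    linarith

end Pool.Agent.Lib.MP_5e7226_co.TR
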