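import Pool.Agent.Lib.MP_5e7226_co.TR.C1

set_option autoImplicit false

/-! Bodies with the rotations of a tetrahedron: the combinatorial core. -/

namespace Pool.Agent.Lib.MP_5e7226_co.TR

open Pool.Agent.Lib.MP_5e7226_co.DX (Works swp)

theorem coreT {G : Set ((Fin 3 → ℝ) × (Fin 3 → ℝ))} (hG : DualT G) :
    (∃ h, CubeT G h) ∨ ∃ z : Fin 6 → Fin 3 → ℝ, ∀ q ∈ G, ∃ n, Works G q.1 (z n) := by
  rcases G.eq_empty_or_nonempty with hne | hne
  · right
    refine ⟨zQ, ?_⟩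
    intro q hq
    rw [hne] at hq
    exact absurd hq (Set.notMem_empty q)
  obtain ⟨q1, hq1, hq1max⟩ := hG.compact.exists_isMaxOn hne
    (f := fun q : (Fin 3 → ℝ) × (Fin 3 → ℝ) => ‖q.1‖) (continuous_norm.comp continuous_fst).continuousOn
  obtain ⟨h, hh⟩ : ∃ h, h = ‖q1.1‖ := ⟨_, rfl⟩
  have hmax' : ∀ q ∈ G, ‖q.1‖ ≤ h := by
    intro q hq
    rw [hh]
    exact hq1max hq
  have hmax : ∀ q ∈ G, ∀ i, |q.1 i| ≤ h := by
    intro q hq i
    rw [← Real.norm_eq_abs]
    exact le_trans (norm_le_pi_norm q.1 i) (hmax' q hq)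
  have hpos : 0 < h := by
    rw [hh]
    refine norm_pos_iff.2 ?_
    intro h0
    have := hG.one q1 hq1
    rw [h0] at this
    simp at this
  have hatt : ∃ q ∈ G, ∃ i, |q.1 i| = h := by
    by_contra hn
    push Not at hn
    have hlt : ∀ i, ‖q1.1 i‖ < h := by
      intro i
      rw [Real.norm_eq_abs]
      exact lt_of_le_of_ne (hmax q1 hq1 i) (hn q1 hq1 i)
    have := (pi_norm_lt_iff hpos).2 hlt
    rw [← hh] at this
    exact lt_irrefl _ this
  by_cases hA : ∃ x u, (x, u) ∈ G ∧ ∃ s : Fin 3 → ℝ, (∀ i, Sg (s i)) ∧ ∃ t, 0 < t ∧ (∀ i, s i * x i = t) ∧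
      ∃ c, s c * u c < 0
  · obtain ⟨x, u, hx, s, hs, t, ht, hst, c, hc⟩ := hA
    right
    exact ⟨_, caseII hG hx hs ht hst hc⟩
  push Not at hA
  by_cases hE : ∃ q ∈ G, ∃ i j : Fin 3, i ≠ j ∧ |q.1 i| = h ∧ |q.1 j| = h
  · obtain ⟨q0, hq0, i, j, hij, hi, hj⟩ := hE
    by_cases hcube : CubeT G h
    · exact Or.inl ⟨h, hcube⟩
    right
    have hκ : ∃ κ, Sg κ ∧ ∀ q ∈ G, (∀ i, |q.1 i| = h) → 0 < κ * (q.1 0 * q.1 1 * q.1 2) := by
      have hne0 : ∀ q : (Fin 3 → ℝ) × (Fin 3 → ℝ), (∀ i, |q.1 i| = h) → q.1 0 * q.1 1 * q.1 2 ≠ 0 := by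
        intro q hq
        have : ∀ i, q.1 i ≠ 0 := by
          intro i hi0
          have := hq i
          rw [hi0, abs_zero] at this
          linarith
        exact mul_ne_zero (mul_ne_zero (this 0) (this 1)) (this 2)
      by_cases hneg : ∃ q ∈ G, (∀ i, |q.1 i| = h) ∧ q.1 0 * q.1 1 * q.1 2 < 0
      · have hpos' : ¬ ∃ q ∈ G, (∀ i, |q.1 i| = h) ∧ 0 < q.1 0 * q.1 1 * q.1 2 := fun hp =>
          hcube ⟨hpos, hmax, hneg, hp⟩
        refine ⟨-1, sg_neg_one, ?_⟩
        intro q hq hall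
        have h1 : ¬ 0 < q.1 0 * q.1 1 * q.1 2 := fun h' => hpos' ⟨q, hq, hall, h'⟩
        have h2 := hne0 q hall
        have : q.1 0 * q.1 1 * q.1 2 < 0 := lt_of_le_of_ne (not_lt.1 h1) h2
        linarith
      · refine ⟨1, sg_one, ?_⟩
        intro q hq hall
        have h1 : ¬ q.1 0 * q.1 1 * q.1 2 < 0 := fun h' => hneg ⟨q, hq, hall, h'⟩
        have h2 := hne0 q hall
        have : 0 < q.1 0 * q.1 1 * q.1 2 := lt_of_le_of_ne (not_lt.1 h1) (Ne.symm h2)
        linarith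
    obtain ⟨κ, hκs, hκG⟩ := hκ
    obtain ⟨k0, hk1, hk2⟩ := third i j hij
    obtain ⟨σ, hσ, hσx⟩ := exists_sg q0.1
    have hik : i ≠ k0 := hk2
    have hjk : j ≠ k0 := Ne.symm hk1
    refine ⟨_, caseIII hG hpos hmax hq0 (k0 := k0) (τ := Function.update σ k0 (σ i * σ j)) ?_ ?_ ?_ hκs hκG⟩
    · intro m
      by_cases hm : m = k0
      · subst hm
        rw [Function.update_self]
        exact (hσ i).mul (hσ j)
      · rw [Function.update_of_ne hm]
        exact hσ m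
    · rw [← prod3 hij hjk hik (Function.update σ k0 (σ i * σ j)), Function.update_self, Function.update_of_ne hik,
        Function.update_of_ne hjk]
      exact ((hσ i).mul (hσ j)).sq
    · intro m hm
      rw [Function.update_of_ne hm]
      have hm' : |q0.1 m| = h := by
        rcases all3 i j k0 m hij hjk hik with h' | h' | h'
        · rw [h']; exact hi
        · rw [h']; exact hj
        · exact absurd h' hm
      have h1 := hσx m
      rcases hσ m with h2 | h2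
      · rw [h2] at h1 ⊢
        rw [one_mul] at h1 ⊢
        rw [← hm', abs_of_nonneg h1]
      · rw [h2] at h1 ⊢
        rw [← hm', abs_of_nonpos (by linarith)]
        ring
  push Not at hE
  right
  refine ⟨zQ, caseI hG hmax hatt ?_ hA⟩
  intro q hq i j hij h1 h2
  exact hE q hq i j hij h1 h2

/-- The swapped set. -/
theorem DualT.swap {G : Set ((Fin 3 → ℝ) × (Fin 3 → ℝ))} (hG : DualT G) : DualT (swp G) := by
  refine ⟨?_, ?_, ?_⟩
  · have : swp G = (Prod.swap : (Fin 3 → ℝ) × (Fin 3 → ℝ) → _) ⁻¹' G := rfl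
    rw [this, ← Set.image_swap_eq_preimage_swap]
    exact hG.compact.image continuous_swap
  · intro p hp
    have := hG.one _ hp
    simp only at this
    linarith
  · intro p hp q hq e0 e1 e2 h0 h1 h2 he
    obtain ⟨p1, p2⟩ := p
    obtain ⟨q1, q2⟩ := q
    have hp' : (p2, p1) ∈ G := hp
    have hq' : (q2, q1) ∈ G := hq
    simp only
    have a := (hG.le _ hq' _ hp' e0 e1 e2 h0 h1 h2 he).1
    have b := (hG.le _ hq' _ hp' e2 e0 e1 h2 h0 h1 (by rw [← he]; ring)).2.2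
    have c := (hG.le _ hq' _ hp' e1 e2 e0 h1 h2 h0 (by rw [← he]; ring)).2.1
    simp only at a b c
    refine ⟨by linarith, ?_, ?_⟩
    · linarith
    · linarith

end Pool.Agent.Lib.MP_5e7226_co.TR
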