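import Pool.Agent.Lib.MP_5e7226_co.TR.Defs

set_option autoImplicit false

/-! Bodies with the rotations of a tetrahedron: the family `F_κ`. -/

namespace Pool.Agent.Lib.MP_5e7226_co.TR

open Pool.Agent.Lib.MP_5e7226_co.DX (Works swp)

theorem exists_sort (a : Fin 3 → ℝ) : ∃ i j k : Fin 3, i ≠ j ∧ j ≠ k ∧ i ≠ k ∧ a j ≤ a i ∧ a k ≤ a j := by
  rcases le_total (a 0) (a 1) with h1 | h1 <;> rcases le_total (a 1) (a 2) with h2 | h2 <;>
    rcases le_total (a 0) (a 2) with h3 | h3
  · exact ⟨2, 1, 0, by decide, by decide, by decide, h2, h1⟩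
  · exact ⟨2, 1, 0, by decide, by decide, by decide, h2, h1⟩
  · exact ⟨1, 2, 0, by decide, by decide, by decide, h2, h3⟩
  · exact ⟨1, 0, 2, by decide, by decide, by decide, h1, h3⟩
  · exact ⟨2, 0, 1, by decide, by decide, by decide, h3, h1⟩
  · exact ⟨0, 2, 1, by decide, by decide, by decide, h3, h2⟩
  · exact ⟨0, 1, 2, by decide, by decide, by decide, h1, h2⟩
  · exact ⟨0, 1, 2, by decide, by decide, by decide, h1, h2⟩

theorem sum3 {i j k : Fin 3} (hij : i ≠ j) (hjk : j ≠ k) (hik : i ≠ k) (f : Fin 3 → ℝ) :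
    ∑ n, f n = f i + f j + f k := by
  rw [Fin.sum_univ_three]
  rcases fin3_cases i j k hij hjk hik with ⟨rfl, rfl, rfl⟩ | ⟨rfl, rfl, rfl⟩ | ⟨rfl, rfl, rfl⟩ |
    ⟨rfl, rfl, rfl⟩ | ⟨rfl, rfl, rfl⟩ | ⟨rfl, rfl, rfl⟩ <;> ring

theorem prod3 {i j k : Fin 3} (hij : i ≠ j) (hjk : j ≠ k) (hik : i ≠ k) (f : Fin 3 → ℝ) :
    f i * f j * f k = f 0 * f 1 * f 2 := by
  rcases fin3_cases i j k hij hjk hik with ⟨rfl, rfl, rfl⟩ | ⟨rfl, rfl, rfl⟩ | ⟨rfl, rfl, rfl⟩ |
    ⟨rfl, rfl, rfl⟩ | ⟨rfl, rfl, rfl⟩ | ⟨rfl, rfl, rfl⟩ <;> ring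

theorem exists_sg (x : Fin 3 → ℝ) : ∃ s : Fin 3 → ℝ, (∀ i, Sg (s i)) ∧ ∀ i, 0 ≤ s i * x i := by
  refine ⟨fun i => if 0 ≤ x i then 1 else -1, ?_, ?_⟩
  · intro i
    by_cases h : 0 ≤ x i
    · simp only [h, if_true]
      exact sg_one
    · simp only [h, if_false]
      exact sg_neg_one
  · intro i
    by_cases h : 0 ≤ x i
    · simp only [h, if_true]
      linarith
    · simp only [h, if_false]
      push Not at h
      linarith

/-- The family `F_κ`. -/
def zF (κ : ℝ) : Fin 6 → Fin 3 → ℝ :=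
  ![![1, 1, κ], ![1, -1, -κ], ![-1, 1, -κ], ![-1, -1, κ], ![1, 0, 0], ![-1, 0, 0]]

theorem zF_of_sg {κ : ℝ} {s : Fin 3 → ℝ} (hs : ∀ i, Sg (s i)) (h : s 0 * s 1 * s 2 = κ) :
    ∃ n, zF κ n = s := by
  have h2 : s 2 = κ * (s 0 * s 1) := by
    rw [← h]
    calc s 2 = (s 0 * s 0) * (s 1 * s 1) * s 2 := by rw [(hs 0).sq, (hs 1).sq]; ring
      _ = _ := by ring
  rcases hs 0 with h0 | h0 <;> rcases hs 1 with h1 | h1
  · refine ⟨0, ?_⟩
    funext i
    rw [h0, h1] at h2
    fin_cases i <;> simp [zF, h0, h1, h2]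
  · refine ⟨1, ?_⟩
    funext i
    rw [h0, h1] at h2
    fin_cases i <;> simp [zF, h0, h1, h2]
  · refine ⟨2, ?_⟩
    funext i
    rw [h0, h1] at h2
    fin_cases i <;> simp [zF, h0, h1, h2]
  · refine ⟨3, ?_⟩
    funext i
    rw [h0, h1] at h2
    fin_cases i <;> simp [zF, h0, h1, h2]

/-- The skeleton of the cases II and III. -/
theorem coverF {G : Set ((Fin 3 → ℝ) × (Fin 3 → ℝ))} (hG : DualT G) {κ : ℝ} (hκ : Sg κ)
    (Hb : ∀ x u, (x, u) ∈ G → ∀ s : Fin 3 → ℝ, (∀ i, Sg (s i)) → s 0 * s 1 * s 2 = κ → ∀ i j k : Fin 3, i ≠ j →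
      j ≠ k → i ≠ k → 0 < s i * x i → x j = 0 → x k = 0 → 0 < s i * u i + s j * u j + s k * u k)
    (Hc : ∀ x u, (x, u) ∈ G → ∀ s : Fin 3 → ℝ, (∀ i, Sg (s i)) → s 0 * s 1 * s 2 = -κ → ∀ t, 0 < t →
      (∀ i, s i * x i = t) → 0 < s 0 * u 0)
    (Hd : ∀ x u, (x, u) ∈ G → ∀ s : Fin 3 → ℝ, (∀ i, Sg (s i)) → s 0 * s 1 * s 2 = -κ → ∀ i j k : Fin 3, i ≠ j →
      j ≠ k → i ≠ k → 0 < s k * x k → s k * x k < s i * x i →
      Six (s i * x i) (s j * x j) (s k * x k) (s i * u i) (s j * u j) (s k * u k) →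
      ¬ (s i * u i + s j * u j ≤ s k * u k)) :
    ∀ q ∈ G, ∃ n, Works G q.1 (zF κ n) := by
  have main : ∀ x : Fin 3 → ℝ, (∃ u, (x, u) ∈ G) → ∀ s : Fin 3 → ℝ, (∀ i, Sg (s i)) → (∀ i, 0 ≤ s i * x i) →
      s 0 * s 1 * s 2 = κ → ∃ n, Works G x (zF κ n) := by
    intro x hx s hs hsx hp
    obtain ⟨i, j, k, hij, hjk, hik, h1, h2⟩ := exists_sort (fun i => s i * x i)
    obtain ⟨n, hn⟩ := zF_of_sg hs hp
    refine ⟨n, ?_⟩
    intro u hu
    rw [hn, sum3 hij hjk hik]
    have h6 := hG.six hu hs hsx hij hjk hik h1 h2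
    rcases (hsx j).lt_or_eq with hB | hB
    · have := h6.sum_pos hB
      linarith
    · have hC : s k * x k = 0 := le_antisymm (by linarith) (hsx k)
      have hj : x j = 0 := by
        rcases mul_eq_zero.1 hB.symm with h' | h'
        · have := (hs j).sq
          rw [h'] at this
          norm_num at this
        · exact h'
      have hk : x k = 0 := by
        rcases mul_eq_zero.1 hC with h' | h'
        · have := (hs k).sq
          rw [h'] at this
          norm_num at this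
        · exact h'
      have hA : 0 < s i * x i := by
        rcases (hsx i).lt_or_eq with h' | h'
        · exact h'
        · exfalso
          have := h6.one
          rw [← hB, hC, ← h'] at this
          norm_num at this
      have := Hb x u hu s hs hp i j k hij hjk hik hA hj hk
      linarith
  intro q hq
  obtain ⟨s, hs, hsx⟩ := exists_sg q.1
  have hq' : ∃ u, (q.1, u) ∈ G := ⟨q.2, hq⟩
  have hprod : Sg (s 0 * s 1 * s 2) := ((hs 0).mul (hs 1)).mul (hs 2)
  have hcase : s 0 * s 1 * s 2 = κ ∨ s 0 * s 1 * s 2 = -κ := by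
    rcases hprod with h | h <;> rcases hκ with h' | h' <;> rw [h, h'] <;> norm_num
  rcases hcase with hp | hp
  · exact main q.1 hq' s hs hsx hp
  · obtain ⟨i, j, k, hij, hjk, hik, h1, h2⟩ := exists_sort (fun i => s i * q.1 i)
    have hs' : ∀ m, Sg (Function.update s k (-s k) m) := by
      intro m
      by_cases h : m = k
      · subst h
        rw [Function.update_self]
        exact (hs m).neg
      · rw [Function.update_of_ne h]
        exact hs m
    have hpr : Function.update s k (-s k) 0 * Function.update s k (-s k) 1 * Function.update s k (-s k) 2 = κ := by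
      rw [← prod3 hij hjk hik (Function.update s k (-s k)), Function.update_self, Function.update_of_ne hik,
        Function.update_of_ne hjk]
      have := prod3 hij hjk hik s
      rw [hp] at this
      linarith
    rcases (hsx k).lt_or_eq with hC | hC
    · rcases lt_or_ge (s k * q.1 k) (s i * q.1 i) with hAC | hAC
      · obtain ⟨n, hn⟩ := zF_of_sg hs' hpr
        refine ⟨n, ?_⟩
        intro u hu
        rw [hn, sum3 hij hjk hik, Function.update_self, Function.update_of_ne hik, Function.update_of_ne hjk]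
        have h6 := hG.six hu hs hsx hij hjk hik h1 h2
        have := Hd q.1 u hu s hs hp i j k hij hjk hik hC hAC h6
        push Not at this
        linarith
      · have hall : ∀ m, s m * q.1 m = s 0 * q.1 0 := by
          have e1 : s i * q.1 i = s j * q.1 j := by linarith
          have e2 : s k * q.1 k = s j * q.1 j := by linarith
          rcases fin3_cases i j k hij hjk hik with ⟨rfl, rfl, rfl⟩ | ⟨rfl, rfl, rfl⟩ | ⟨rfl, rfl, rfl⟩ |
            ⟨rfl, rfl, rfl⟩ | ⟨rfl, rfl, rfl⟩ | ⟨rfl, rfl, rfl⟩ <;> intro m <;> fin_cases m <;>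
            simp only [Fin.zero_eta, Fin.mk_one, Fin.reduceFinMk] <;> linarith
        have hpos : 0 < s 0 * q.1 0 := by rw [← hall k]; exact hC
        have key : ∀ u, (q.1, u) ∈ G → 0 < s 0 * u 0 := fun u hu =>
          Hc q.1 u hu s hs hp _ hpos hall
        rcases hs 0 with h0 | h0
        · refine ⟨4, ?_⟩
          intro u hu
          have := key u hu
          rw [h0] at this
          simp [zF, Fin.sum_univ_three]
          linarith
        · refine ⟨5, ?_⟩
          intro u hu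
          have := key u hu
          rw [h0] at this
          simp [zF, Fin.sum_univ_three]
          linarith
    · refine main q.1 hq' _ hs' ?_ hpr
      intro m
      by_cases h : m = k
      · subst h
        rw [Function.update_self, neg_mul, ← hC, neg_zero]
      · rw [Function.update_of_ne h]
        exact hsx m

end Pool.Agent.Lib.MP_5e7226_co.TR
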