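import Pool.Agent.Lib.MP_5e7226_co.TR.Geo

set_option autoImplicit false

/-! Bodies with the rotations of a tetrahedron: the cross-body. -/

namespace Pool.Agent.Lib.MP_5e7226_co.TR

open Finset
open Pool.Agent.Lib.MP_5e7226_co.DX (Works swp co fu GK pairing sum_co co_sum)
open Pool.Agent.Lib.MP_5e7226_co.HX (Body compact_GK one_GK le_GK illum_dirs sep_of_works lt_max)
open Pool.Agent.Lib.MP_5e7226_co.RG (IsCrossBody IsAffineCube IlluminatedBy SeparatedBy Good bas bas_apply)

variable {b : Module.Basis (Fin 3) ℝ E3} {o : E3} {K : Set E3}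

/-- A dual pair against a point of `K`, with even signs. -/
theorem GK_le_sg (h : SymB b o K) {q : (Fin 3 → ℝ) × (Fin 3 → ℝ)} (hq : q ∈ GK b o K) {y : E3} (hy : y ∈ K)
    {e0 e1 e2 : ℝ} (h0 : Sg e0) (h1 : Sg e1) (h2 : Sg e2) (he : e0 * e1 * e2 = 1) :
    q.2 0 * (e0 * co b o y 0) + q.2 1 * (e1 * co b o y 1) + q.2 2 * (e2 * co b o y 2) ≤ 1 := by
  obtain ⟨p, hp, f, hf, hfp, rfl⟩ := hq
  have h3 := hf _ (h.sg h0 h1 h2 he (co b o y) (by rw [pt_co]; exact hy))
  rw [map_pt] at h3
  simp only [Matrix.cons_val_zero, Matrix.cons_val_one, Matrix.cons_val] at h3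
  simp only [fu]
  linarith

/-- All the sign vectors are normals, from one of each parity. -/
theorem signs_le (h : SymB b o K) {t : ℝ} (ht : 0 < t) {p q : (Fin 3 → ℝ) × (Fin 3 → ℝ)} (hp : p ∈ GK b o K)
    (hpt : ∀ i, |p.2 i| = t) (hpp : p.2 0 * p.2 1 * p.2 2 < 0) (hq : q ∈ GK b o K)
    (hqt : ∀ i, |q.2 i| = t) (hqq : 0 < q.2 0 * q.2 1 * q.2 2) {s : Fin 3 → ℝ} (hs : ∀ i, Sg (s i)) {y : E3}
    (hy : y ∈ K) : t * (s 0 * co b o y 0 + s 1 * co b o y 1 + s 2 * co b o y 2) ≤ 1 := by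
  have key : ∀ r : (Fin 3 → ℝ) × (Fin 3 → ℝ), r ∈ GK b o K → (∀ i, |r.2 i| = t) →
      0 < (s 0 * s 1 * s 2) * (r.2 0 * r.2 1 * r.2 2) →
      t * (s 0 * co b o y 0 + s 1 * co b o y 1 + s 2 * co b o y 2) ≤ 1 := by
    intro r hr hrt hpos
    obtain ⟨σ, hσ, hσr⟩ := exists_sg r.2
    have hri : ∀ i, r.2 i = σ i * t := by
      intro i
      have h1 := hσr i
      have h2 : |σ i * r.2 i| = t := by
        rw [← hrt i, abs_mul]
        rcases hσ i with h' | h' <;> rw [h'] <;> simp
      rw [abs_of_nonneg h1] at h2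
      rw [← h2, ← mul_assoc, (hσ i).sq, one_mul]
    have hprod : (s 0 * σ 0) * (s 1 * σ 1) * (s 2 * σ 2) = 1 := by
      have hS : Sg ((s 0 * σ 0) * (s 1 * σ 1) * (s 2 * σ 2)) :=
        (((hs 0).mul (hσ 0)).mul ((hs 1).mul (hσ 1))).mul ((hs 2).mul (hσ 2))
      rcases hS with h' | h'
      · exact h'
      · exfalso
        rw [hri 0, hri 1, hri 2] at hpos
        have e : (s 0 * s 1 * s 2) * (σ 0 * t * (σ 1 * t) * (σ 2 * t)) =
            ((s 0 * σ 0) * (s 1 * σ 1) * (s 2 * σ 2)) * (t * t * t) := by ring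
        rw [e, h'] at hpos
        have := mul_pos (mul_pos ht ht) ht
        linarith
    have h1 := GK_le_sg h hr hy ((hs 0).mul (hσ 0)) ((hs 1).mul (hσ 1)) ((hs 2).mul (hσ 2)) hprod
    rw [hri 0, hri 1, hri 2] at h1
    have e : t * (s 0 * co b o y 0 + s 1 * co b o y 1 + s 2 * co b o y 2) =
        σ 0 * t * (s 0 * σ 0 * co b o y 0) + σ 1 * t * (s 1 * σ 1 * co b o y 1) +
          σ 2 * t * (s 2 * σ 2 * co b o y 2) := by
      calc _ = 1 * (t * (s 0 * co b o y 0)) + 1 * (t * (s 1 * co b o y 1)) + 1 * (t * (s 2 * co b o y 2)) := by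
            ring
        _ = (σ 0 * σ 0) * (t * (s 0 * co b o y 0)) + (σ 1 * σ 1) * (t * (s 1 * co b o y 1)) +
            (σ 2 * σ 2) * (t * (s 2 * co b o y 2)) := by rw [(hσ 0).sq, (hσ 1).sq, (hσ 2).sq]
        _ = _ := by ring
    rw [e]
    exact h1
  have hS : Sg (s 0 * s 1 * s 2) := ((hs 0).mul (hs 1)).mul (hs 2)
  rcases hS with h' | h'
  · exact key q hq hqt (by rw [h']; linarith)
  · exact key p hp hpt (by rw [h']; linarith)

/-- Points which no normalized functional exceeds are in `K`. -/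
theorem mem_of_le (hK : Body o K) {x : Fin 3 → ℝ}
    (hx : ∀ q ∈ GK b o K, q.2 0 * x 0 + q.2 1 * x 1 + q.2 2 * x 2 ≤ 1) : pt b o x ∈ K := by
  by_contra hn
  obtain ⟨f, s, hf1, hf2⟩ := geometric_hahn_banach_closed_point hK.convex hK.compact.isClosed hn
  have hf0 : f ≠ 0 := by
    rintro rfl
    have h1 := hf1 o (interior_subset hK.ho)
    simp at h1 hf2
    linarith
  obtain ⟨p, hp, hmax, hlt, hG⟩ := exists_pair b hK hf0
  have h1 := hx _ hG
  have hc : 0 < f p - f o := by linarith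
  simp only [fu, FunLike.coe_smul, Pi.smul_apply, smul_eq_mul] at h1
  have h2 : (f p - f o)⁻¹ * (x 0 * f (b 0) + x 1 * f (b 1) + x 2 * f (b 2)) ≤ 1 := by linarith
  rw [inv_mul_le_iff₀ hc] at h2
  have h3 := map_pt (b := b) (o := o) f x
  have h4 := hf1 p hp
  linarith

private theorem mem_hull_of_abs (o : E3) (v : Fin 3 → E3)
    (α : Fin 3 → ℝ) (hα : ∑ i, |α i| ≤ 1) :
    o + ∑ i, α i • v i ∈ convexHull ℝ (⋃ i, ({o + v i, o - (1 : ℝ) • v i} : Set E3)) := by
  classical
  set H := convexHull ℝ (⋃ i, ({o + v i, o - (1 : ℝ) • v i} : Set E3)) with hH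
  have hconv : Convex ℝ H := convex_convexHull ℝ _
  have hplus : ∀ i, o + v i ∈ H := fun i => subset_convexHull ℝ _
    (Set.mem_iUnion.2 ⟨i, by simp⟩)
  have hminus : ∀ i, o - (1 : ℝ) • v i ∈ H := fun i => subset_convexHull ℝ _
    (Set.mem_iUnion.2 ⟨i, by simp⟩)
  have ho : o ∈ H := by
    have h1 := hconv (hplus 0) (hminus 0) (a := 1 / 2) (b := 1 / 2) (by norm_num) (by norm_num)
      (by norm_num)
    have e : (1 / 2 : ℝ) • (o + v 0) + (1 / 2 : ℝ) • (o - (1 : ℝ) • v 0) = o := by module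
    rwa [e] at h1
  let p : Fin 3 → E3 := fun i => if 0 ≤ α i then o + v i else o - (1 : ℝ) • v i
  have hp : ∀ i, p i ∈ H := by
    intro i
    simp only [p]
    split_ifs
    · exact hplus i
    · exact hminus i
  have hpe : ∀ i, |α i| • p i = |α i| • o + α i • v i := by
    intro i
    simp only [p]
    split_ifs with h
    · rw [smul_add, abs_of_nonneg h]
    · rw [one_smul, smul_sub, abs_of_neg (not_le.1 h), neg_smul, neg_smul, sub_neg_eq_add]
  set s := ∑ i, |α i| with hs
  rcases eq_or_lt_of_le (show 0 ≤ s from sum_nonneg (fun _ _ => abs_nonneg _)) with h0 | h0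
  · have hz : ∀ i, α i = 0 := by
      intro i
      have := (sum_eq_zero_iff_of_nonneg (fun i _ => abs_nonneg (α i))).1 h0.symm i (mem_univ i)
      exact abs_eq_zero.1 this
    have : o + ∑ i, α i • v i = o := by simp [hz]
    rw [this]; exact ho
  · have hz : ∑ i, (|α i| / s) • p i ∈ H := by
      apply hconv.sum_mem
      · intro i _; positivity
      · rw [← sum_div, ← hs]; exact div_self h0.ne'
      · intro i _; exact hp i
    have h1 := hconv ho hz (a := 1 - s) (b := s) (by linarith) h0.le (by ring)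
    have e : (1 - s) • o + s • ∑ i, (|α i| / s) • p i = o + ∑ i, α i • v i := by
      rw [smul_sum]
      have : ∀ i ∈ (univ : Finset (Fin 3)), s • (|α i| / s) • p i = |α i| • o + α i • v i := by
        intro i _
        rw [smul_smul, mul_div_cancel₀ _ h0.ne', hpe]
      rw [sum_congr rfl this, sum_add_distrib, ← sum_smul, ← hs, ← add_assoc, ← add_smul]
      have : (1 : ℝ) - s + s = 1 := by ring
      rw [this, one_smul]
    rwa [e] at h1

/-- The cross-body in coordinates. -/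
theorem crossBody_of_coords (hc : Convex ℝ K) {v : Fin 3 → E3}
    (hv : LinearIndependent ℝ v)
    (hsub : ∀ y ∈ K, ∃ c : Fin 3 → ℝ, ∑ i, |c i| ≤ 1 ∧ y = o + ∑ i, c i • v i)
    (hplus : ∀ i, o + v i ∈ K) (hminus : ∀ i, o - v i ∈ K) : IsCrossBody K o := by
  refine ⟨v, fun _ => 1, hv, fun _ => one_pos, ?_⟩
  apply Set.Subset.antisymm
  · intro x hx
    obtain ⟨c, hc, rfl⟩ := hsub x hx
    exact mem_hull_of_abs o _ _ hc
  · apply convexHull_min _ hc
    intro x hx
    obtain ⟨i, hi⟩ := Set.mem_iUnion.1 hx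
    simp only [Set.mem_insert_iff, Set.mem_singleton_iff] at hi
    rcases hi with rfl | rfl
    · exact hplus i
    · rw [one_smul]
      exact hminus i

/-- The cross-body. -/
theorem cross_end (hK : Body o K) (hS : SymB b o K) {h : ℝ} (hc : CubeT (swp (GK b o K)) h) :
    IsCrossBody K o := by
  obtain ⟨hh, hmax, ⟨p, hp, hpt, hpp⟩, ⟨q, hq, hqt, hqq⟩⟩ := hc
  have hp' : (p.2, p.1) ∈ GK b o K := hp
  have hq' : (q.2, q.1) ∈ GK b o K := hq
  have hle : ∀ s : Fin 3 → ℝ, (∀ i, Sg (s i)) → ∀ y ∈ K,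
      h * (s 0 * co b o y 0 + s 1 * co b o y 1 + s 2 * co b o y 2) ≤ 1 := fun s hs y hy =>
    signs_le hS hh hp' hpt hpp hq' hqt hqq hs hy
  have hmax' : ∀ r ∈ GK b o K, ∀ i, |r.2 i| ≤ h := fun r hr i => hmax (r.2, r.1) hr i
  have hli : LinearIndependent ℝ (fun i => h⁻¹ • b i) := by
    have := b.linearIndependent.units_smul (fun _ => Units.mk0 h⁻¹ (inv_ne_zero hh.ne'))
    exact this
  have hsum : ∀ c : Fin 3 → ℝ, o + ∑ i, c i • (h⁻¹ • b i) = pt b o (fun i => c i * h⁻¹) := by
    intro c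
    unfold pt
    simp only [smul_smul]
  have hvert : ∀ (i : Fin 3) (s : ℝ), Sg s → pt b o (fun j => if j = i then s * h⁻¹ else 0) ∈ K := by
    intro i s hs
    apply mem_of_le hK
    intro r hr
    have h1 := hmax' r hr i
    have h2 : r.2 i * (s * h⁻¹) ≤ 1 := by
      have h3 : r.2 i * s ≤ h := by
        rcases hs with h' | h' <;> rw [h']
        · linarith [(abs_le.1 h1).2]
        · linarith [(abs_le.1 h1).1]
      rw [← mul_assoc, ← div_eq_mul_inv, div_le_one hh]
      exact h3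
    fin_cases i
    · simpa using h2
    · simpa using h2
    · simpa using h2
  refine crossBody_of_coords hK.convex hli ?_ ?_ ?_
  · intro y hy
    refine ⟨fun i => co b o y i * h, ?_, ?_⟩
    · obtain ⟨s, hs, hsx⟩ := exists_sg (co b o y)
      have h1 := hle s hs y hy
      rw [Fin.sum_univ_three]
      have h2 : ∀ i, |co b o y i * h| = s i * co b o y i * h := by
        intro i
        rw [abs_mul, abs_of_pos hh]
        congr 1
        rw [← abs_of_nonneg (hsx i), abs_mul]
        rcases hs i with h' | h' <;> rw [h'] <;> simp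
      rw [h2, h2, h2]
      linarith
    · rw [hsum]
      have : (fun i => co b o y i * h * h⁻¹) = co b o y := by
        funext i
        rw [mul_assoc, mul_inv_cancel₀ hh.ne', mul_one]
      rw [this, pt_co]
  · intro i
    have h1 := hvert i 1 sg_one
    have h2 : pt b o (fun j => if j = i then 1 * h⁻¹ else 0) = o + h⁻¹ • b i := by
      unfold pt
      congr 1
      rw [sum_eq_single i (fun j _ hj => by simp only [if_neg hj, zero_smul]) (fun h => absurd (mem_univ i) h)]
      simp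
    rw [h2] at h1
    exact h1
  · intro i
    have h1 := hvert i (-1) sg_neg_one
    have h2 : pt b o (fun j => if j = i then -1 * h⁻¹ else 0) = o - h⁻¹ • b i := by
      unfold pt
      rw [sum_eq_single i (fun j _ hj => by simp only [if_neg hj, zero_smul]) (fun h => absurd (mem_univ i) h)]
      simp [sub_eq_add_neg]
    rw [h2] at h1
    exact h1

end Pool.Agent.Lib.MP_5e7226_co.TR
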