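import Mathlib.Tactic
import Mathlib.Data.Real.Basic

set_option autoImplicit false

/-! The inequalities between the sorted absolute values `A ≥ B ≥ C` of the coordinates of a point and the
values `P, Q, R` of a normal at it (bodies with the rotations of a tetrahedron). -/

namespace Pool.Agent.Lib.MP_5e7226_co.TR

/-- Sorted data. -/
structure Six (A B C P Q R : ℝ) : Prop where
  hAB : B ≤ A
  hBC : C ≤ B
  hC : 0 ≤ C
  one : A * P + B * Q + C * R = 1
  dab : 0 ≤ A * P + B * Q
  dac : 0 ≤ A * P + C * R
  dbc : 0 ≤ B * Q + C * R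
  r1 : B * P + C * Q + A * R ≤ 1
  r1a : B * P - C * Q - A * R ≤ 1
  r1b : -(B * P) + C * Q - A * R ≤ 1
  r2 : C * P + A * Q + B * R ≤ 1
  r2a : -(C * P) + A * Q - B * R ≤ 1
  r2b : -(C * P) - A * Q + B * R ≤ 1

variable {A B C P Q R : ℝ}

/-- `V0`, first part. -/
theorem Six.P_nonneg (h : Six A B C P Q R) (hAC : C < A) : 0 ≤ P := by
  by_contra hP
  push Not at hP
  have hA : 0 < A := lt_of_le_of_lt h.hC hAC
  have hB0 : 0 ≤ B := le_trans h.hC h.hBC
  have hAP : A * P < 0 := mul_neg_of_pos_of_neg hA hP
  have hBQ : 0 < B * Q := by linarith [h.dab]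
  have hCR : 0 < C * R := by linarith [h.dac]
  have hQ : 0 < Q := by
    by_contra hq
    push Not at hq
    nlinarith
  have hR : 0 < R := by
    by_contra hq
    push Not at hq
    nlinarith [h.hC]
  have h2 := h.r2
  have h1 := h.one
  have e1 : 0 ≤ (A - B) * Q := mul_nonneg (by linarith [h.hAB]) hQ.le
  have e2 : 0 ≤ (B - C) * R := mul_nonneg (by linarith [h.hBC]) hR.le
  have e3 : (A - C) * P < 0 := mul_neg_of_pos_of_neg (by linarith) hP
  nlinarith

/-- `V0`, second part. -/
theorem Six.P_zero (h : Six A B C P Q R) (hAC : C < A) (hP : P = 0) : A = B ∧ R = 0 ∧ B * Q = 1 ∧ 0 < B := by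
  have hA : 0 < A := lt_of_le_of_lt h.hC hAC
  have hB0 : 0 ≤ B := le_trans h.hC h.hBC
  have h1 := h.one
  have h2 := h.r2
  have hCR : 0 ≤ C * R := by have := h.dac; rw [hP] at this; linarith
  have hBQ : 0 ≤ B * Q := by have := h.dab; rw [hP] at this; linarith
  have hB : 0 < B := by
    rcases hB0.lt_or_eq with hb | hb
    · exact hb
    · exfalso
      have hC : C = 0 := le_antisymm (by linarith [h.hBC]) h.hC
      rw [hP, ← hb, hC] at h1
      norm_num at h1
  have hQ : 0 ≤ Q := by
    by_contra hq
    push Not at hq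
    nlinarith
  subst hP
  rcases h.hC.lt_or_eq with hc | hc
  · have hR : 0 ≤ R := by
      by_contra hq
      push Not at hq
      nlinarith
    have e1 : 0 ≤ (A - B) * Q := mul_nonneg (by linarith [h.hAB]) hQ
    have e2 : 0 ≤ (B - C) * R := mul_nonneg (by linarith [h.hBC]) hR
    have e3 : (A - B) * Q = 0 := by nlinarith
    have e4 : (B - C) * R = 0 := by nlinarith
    rcases hQ.lt_or_eq with hq | hq
    · have hab : A = B := by
        rcases mul_eq_zero.1 e3 with h' | h'
        · linarith
        · exact absurd h' hq.ne'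
      have hbc : B - C ≠ 0 := by
        intro h'
        linarith
      have hR0 : R = 0 := by
        rcases mul_eq_zero.1 e4 with h' | h'
        · exact absurd h' hbc
        · exact h'
      refine ⟨hab, hR0, ?_, hB⟩
      rw [hR0] at h1
      linarith
    · exfalso
      have hr : 0 < R := by
        rcases hR.lt_or_eq with h' | h'
        · exact h'
        · rw [← hq, ← h'] at h1
          norm_num at h1
      have := h.r1
      have hR1 : 0 < (A - C) * R := mul_pos (by linarith) hr
      rw [← hq] at this h1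
      nlinarith
  · have hbq : B * Q = 1 := by rw [← hc] at h1; linarith
    have hq : 0 < Q := by
      rcases hQ.lt_or_eq with h' | h'
      · exact h'
      · rw [← h'] at hbq
        norm_num at hbq
    have h3 := h.r2a
    have e1 : 0 ≤ (A - B) * Q := mul_nonneg (by linarith [h.hAB]) hQ
    rw [← hc] at h2 h3
    have e2 : B * R = 0 := by nlinarith
    have hR0 : R = 0 := by
      rcases mul_eq_zero.1 e2 with h' | h'
      · exact absurd h' hB.ne'
      · exact h'
    have e3 : (A - B) * Q = 0 := by rw [hR0] at h2; nlinarith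
    refine ⟨?_, hR0, hbq, hB⟩
    rcases mul_eq_zero.1 e3 with h' | h'
    · linarith
    · exact absurd h' hq.ne'

/-- `V0` for `A > B`. -/
theorem Six.P_pos (h : Six A B C P Q R) (hAB : B < A) : 0 < P := by
  have hAC : C < A := lt_of_le_of_lt h.hBC hAB
  rcases (h.P_nonneg hAC).lt_or_eq with h' | h'
  · exact h'
  · have := (h.P_zero hAC h'.symm).1
    linarith

/-- `V1`. -/
theorem Six.sum_pos (h : Six A B C P Q R) (hB : 0 < B) : 0 < P + Q + R := by
  have hA : 0 < A := lt_of_lt_of_le hB h.hAB
  rcases lt_or_ge C A with hAC | hAC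
  swap
  · have h1 : A = B := le_antisymm (le_trans hAC h.hBC) h.hAB
    have h2 : B = C := le_antisymm (le_trans h.hAB hAC) h.hBC
    have h3 := h.one
    rw [← h2, ← h1] at h3
    have : A * (P + Q + R) = 1 := by linarith
    by_contra hn
    push Not at hn
    nlinarith
  have hP := h.P_nonneg hAC
  have h1 := h.one
  rcases lt_or_ge R 0 with hR | hR
  · have hQ : 0 ≤ Q := by
      by_contra hq
      push Not at hq
      have := h.dbc
      nlinarith [mul_neg_of_pos_of_neg hB hq, mul_nonpos_of_nonneg_of_nonpos h.hC hR.le]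
    by_contra hn
    push Not at hn
    have h3 := h.r1a
    have e1 : (A + C) * (P + Q) ≤ (A + C) * (-R) := mul_le_mul_of_nonneg_left (by linarith) (by linarith [h.hC])
    have e2 : (B + C) * P + (A - B) * Q ≤ 0 := by nlinarith
    have e3 : 0 ≤ (A - B) * Q := mul_nonneg (by linarith [h.hAB]) hQ
    have hP0 : P = 0 := by
      by_contra hp
      have : 0 < P := lt_of_le_of_ne hP (Ne.symm hp)
      have : 0 < (B + C) * P := mul_pos (by linarith [h.hC]) this
      linarith
    have := (h.P_zero hAC hP0).2.1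
    linarith
  · rcases lt_or_ge Q 0 with hQ | hQ
    · have h2 := h.dbc
      have h3 := h.r2b
      have hBQ : B * Q < 0 := mul_neg_of_pos_of_neg hB hQ
      have hR' : 0 < R := by
        rcases hR.lt_or_eq with h' | h'
        · exact h'
        · rw [← h'] at h2
          linarith
      have e1 : 0 ≤ (B - C) * R := mul_nonneg (by linarith [h.hBC]) hR
      have e2 : (A + B) * (-Q) ≤ (A + C) * P := by nlinarith
      have e3 : (A + C) * P ≤ (A + B) * P := mul_le_mul_of_nonneg_right (by linarith [h.hBC]) hP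
      have e4 : -Q ≤ P := le_of_mul_le_mul_left (le_trans e2 e3) (by linarith)
      linarith
    · have : 0 ≤ P + Q + R := by linarith
      rcases this.lt_or_eq with h' | h'
      · exact h'
      · exfalso
        have hp : P = 0 := by linarith
        have hq : Q = 0 := by linarith
        have hr : R = 0 := by linarith
        rw [hp, hq, hr] at h1
        norm_num at h1

/-- `V2`, minus. -/
theorem Six.v2m (h : Six A B C P Q R) (hAB : B < A) : 0 < P - R / 2 := by
  by_contra hn
  push Not at hn
  have hP := h.P_pos hAB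
  have hR : 2 * P ≤ R := by linarith
  have hp : 0 < A - B := by linarith
  have hq : 0 ≤ B - C := by linarith [h.hBC]
  have h1 := h.one
  have h2 := h.r1
  have h3 := h.r2
  have e1 : (A - B + (B - C)) * (2 * P) ≤ (A - B + (B - C)) * R := mul_le_mul_of_nonneg_left hR (by linarith)
  have e2 : ((A - B) + 2 * (B - C)) * P ≤ (B - C) * Q := by nlinarith
  have e3 : (B - C) * (2 * P) ≤ (B - C) * R := mul_le_mul_of_nonneg_left hR hq
  have e4 : (A - B) * Q ≤ ((A - B) - (B - C)) * P := by nlinarith
  have e5 := mul_le_mul_of_nonneg_left e2 hp.le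
  have e6 := mul_le_mul_of_nonneg_left e4 hq
  have e7 : ((A - B) ^ 2 + (A - B) * (B - C) + (B - C) ^ 2) * P ≤ 0 := by nlinarith
  have e8 : 0 < (A - B) ^ 2 + (A - B) * (B - C) + (B - C) ^ 2 := by positivity
  nlinarith [mul_pos e8 hP]

/-- `V2`, plus. -/
theorem Six.v2p (h : Six A B C P Q R) (hAB : B < A) : 0 < P + R / 2 := by
  by_contra hn
  push Not at hn
  have hP := h.P_pos hAB
  have hR : R ≤ -(2 * P) := by linarith
  have hp : 0 < A - B := by linarith
  have hq : 0 ≤ B - C := by linarith [h.hBC]
  have hC := h.hC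
  have h1 := h.one
  have h2 := h.r1b
  have h3 := h.r2a
  have e1 : 0 ≤ (A + B) * P + (B - C) * Q + (A + C) * R := by linarith
  have e2 : 0 ≤ (A + C) * P - (A - B) * Q + (B + C) * R := by linarith
  have e3 := mul_nonneg hp.le e1
  have e4 := mul_nonneg hq e2
  have e5 : 0 ≤ ((A - B) * (A + B) + (B - C) * (A + C)) * P + ((A - B) * (A + C) + (B - C) * (B + C)) * R := by
    nlinarith
  have hc : 0 ≤ (A - B) * (A + C) + (B - C) * (B + C) := by
    have : 0 ≤ A + C := by linarith
    have : 0 ≤ B + C := by linarith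
    positivity
  have e6 := mul_le_mul_of_nonneg_left hR hc
  have e7 : 0 < 2 * ((A - B) * (A + C) + (B - C) * (B + C)) - ((A - B) * (A + B) + (B - C) * (A + C)) := by
    have : 2 * ((A - B) * (A + C) + (B - C) * (B + C)) - ((A - B) * (A + B) + (B - C) * (A + C)) =
        (A - B) ^ 2 - (A - B) * (B - C) + (B - C) ^ 2 + 2 * C * ((A - B) + (B - C)) := by ring
    rw [this]
    have h5 : 0 < (A - B) ^ 2 - (A - B) * (B - C) + (B - C) ^ 2 := by
      nlinarith [sq_nonneg ((A - B) - 2 * (B - C)), mul_pos hp hp]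
    have h6 : 0 ≤ 2 * C * ((A - B) + (B - C)) := by
      have : 0 ≤ (A - B) + (B - C) := by linarith
      positivity
    linarith
  nlinarith [mul_pos e7 hP]

/-- `V3`. -/
theorem Six.v3 (h : Six A B C P Q R) (hAC : C < A) : 0 < P + Q / 2 := by
  have hP := h.P_nonneg hAC
  have hA : 0 < A := lt_of_le_of_lt h.hC hAC
  have hB0 : 0 ≤ B := le_trans h.hC h.hBC
  rcases lt_or_ge Q 0 with hQ | hQ
  · have hP' : 0 < P := by
      rcases hP.lt_or_eq with h' | h'
      · exact h'
      · exfalso
        have := (h.P_zero hAC h'.symm).2.2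
        nlinarith [mul_neg_of_pos_of_neg this.2 hQ]
    have hbr : 0 ≤ (B - C) * R := by
      rcases hB0.lt_or_eq with hb | hb
      · have h2 := h.dbc
        have hBQ : B * Q < 0 := mul_neg_of_pos_of_neg hb hQ
        have hCR : 0 < C * R := by linarith
        have hR' : 0 < R := by
          by_contra hq
          push Not at hq
          nlinarith [mul_nonpos_of_nonneg_of_nonpos h.hC hq]
        exact mul_nonneg (by linarith [h.hBC]) hR'.le
      · have : C = 0 := le_antisymm (by linarith [h.hBC]) h.hC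
        rw [← hb, this]
        simp
    have h1 := h.one
    have h3 := h.r2b
    have e2 : (A + B) * (-Q) ≤ (A + C) * P := by nlinarith
    have e3 : (A + C) * P ≤ (A + B) * P := mul_le_mul_of_nonneg_right (by linarith [h.hBC]) hP
    have e4 : -Q ≤ P := le_of_mul_le_mul_left (le_trans e2 e3) (by linarith)
    linarith
  · have h0 : 0 ≤ P + Q / 2 := by linarith
    rcases h0.lt_or_eq with h' | h'
    · exact h'
    · exfalso
      have hp : P = 0 := by linarith
      have hq : Q = 0 := by linarith
      have := (h.P_zero hAC hp).2.2.1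
      rw [hq] at this
      norm_num at this

/-- `V4`, first half. -/
theorem Six.v4a (h : Six A B C P Q R) (hAC : C < A) (hx : B * (2 * B - A) < C ^ 2) : 0 < P - Q / 2 := by
  by_contra hn
  push Not at hn
  have hP := h.P_nonneg hAC
  have hQ : 2 * P ≤ Q := by linarith
  have h1 := h.one
  have h2 := h.r2
  have h3 := h.r2a
  have hC := h.hC
  have hAB := h.hAB
  have hBC := h.hBC
  have e0 : (A - B) * (2 * P) ≤ (A - B) * Q := mul_le_mul_of_nonneg_left hQ (by linarith)
  have e1 : (B - C) * R ≤ (2 * B - A - C) * P := by nlinarith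
  have e2 : 0 ≤ (2 * B - A + C) * P + (B + C) * R := by nlinarith
  have e3 := mul_le_mul_of_nonneg_left e1 (by linarith : 0 ≤ B + C)
  have e4 := mul_nonneg (by linarith : 0 ≤ B - C) e2
  have e5 : 0 ≤ (B * (2 * B - A) - C ^ 2) * P := by nlinarith
  have hP0 : P = 0 := by
    by_contra hp
    have : 0 < P := lt_of_le_of_ne hP (Ne.symm hp)
    nlinarith [mul_pos (by linarith : 0 < C ^ 2 - B * (2 * B - A)) this]
  have hab := (h.P_zero hAC hP0).1
  rw [hab] at hx
  nlinarith

/-- `V4`, second half. -/
theorem Six.v4b (h : Six A B C P Q R) (hAC : C < A) (hB : 0 < B) (hx : C ^ 2 ≤ B * (2 * B - A)) : 0 < P / 2 + Q := by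
  by_contra hn
  push Not at hn
  have hP := h.P_nonneg hAC
  have h1 := h.one
  have h2 := h.r1
  have h3 := h.dbc
  have hC := h.hC
  have hAB := h.hAB
  have hBC := h.hBC
  have hP' : 0 < P := by
    rcases hP.lt_or_eq with h' | h'
    · exact h'
    · exfalso
      have := (h.P_zero hAC h'.symm).2.2.1
      rw [← h'] at hn
      nlinarith
  have hQ : Q < 0 := by linarith
  have hBQ : B * Q < 0 := mul_neg_of_pos_of_neg hB hQ
  have hCR : 0 < C * R := by linarith
  have hC' : 0 < C := by
    rcases hC.lt_or_eq with h' | h'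
    · exact h'
    · rw [← h'] at hCR
      norm_num at hCR
  have e1 : (A - C) * R ≤ (A - B) * P + (B - C) * Q := by linarith
  have e2 := mul_le_mul_of_nonneg_left e1 hC
  have e3 : (A - C) * (B * (-Q)) ≤ (A - C) * (C * R) := mul_le_mul_of_nonneg_left (by linarith) (by linarith)
  have e4 : (-Q) * (C * (B - C) + B * (A - C)) ≤ C * (A - B) * P := by nlinarith
  have e5 : P / 2 * (C * (B - C) + B * (A - C)) ≤ (-Q) * (C * (B - C) + B * (A - C)) := by
    apply mul_le_mul_of_nonneg_right (by linarith)
    have : 0 ≤ B - C := by linarith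
    have : 0 ≤ A - C := by linarith
    positivity
  have e6 : P * (A * B - C ^ 2 - 2 * C * (A - B)) ≤ 0 := by nlinarith
  have e7 : A * B - C ^ 2 - 2 * C * (A - B) ≤ 0 := by
    by_contra hh
    push Not at hh
    nlinarith [mul_pos hP' hh]
  have e8 : (A - B) * (B - C) ≤ 0 := by nlinarith
  have e9 : 0 ≤ (A - B) * (B - C) := mul_nonneg (by linarith) (by linarith)
  have e10 : (A - B) * (B - C) = 0 := le_antisymm e8 e9
  rcases mul_eq_zero.1 e10 with h' | h'
  · have hab : A = B := by linarith
    rw [hab] at e7 hAC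
    nlinarith
  · have hbc : B = C := by linarith
    rw [← hbc] at hx hAC
    nlinarith

/-- The common part of the cases II and III: a point with `R ≥ P + Q`. -/
theorem Six.flip (h : Six A B C P Q R) (hAC : C < A) (hR : P + Q ≤ R) :
    B < A ∧ Q ≤ 0 ∧ R ≤ P ∧ 0 < P ∧ 1 ≤ (A + C) * P := by
  have hP := h.P_nonneg hAC
  have h1 := h.one
  have h2 := h.r1
  have hC := h.hC
  have hAB := h.hAB
  have hBC := h.hBC
  have e0 : (A - C) * (P + Q) ≤ (A - C) * R := mul_le_mul_of_nonneg_left hR (by linarith)
  have e1 : (B - C) * P + (A - B) * Q ≤ 0 := by nlinarith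
  have hab : B < A := by
    rcases hAB.lt_or_eq with h' | h'
    · exact h'
    · exfalso
      have e2 : (B - C) * P ≤ 0 := by rw [h'] at e1 ⊢; linarith
      have hP0 : P = 0 := by
        by_contra hp
        have : 0 < P := lt_of_le_of_ne hP (Ne.symm hp)
        nlinarith [mul_pos (by linarith : 0 < B - C) this]
      have h5 := h.P_zero hAC hP0
      rw [hP0, h5.2.1] at hR
      have h6 := h5.2.2.1
      have h7 := h5.2.2.2
      nlinarith
  have hP' := h.P_pos hab
  have hQ : Q ≤ 0 := by
    by_contra hq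
    push Not at hq
    nlinarith [mul_pos (by linarith : 0 < A - B) hq, mul_nonneg (by linarith : 0 ≤ B - C) hP]
  have hRP : R ≤ P := by
    have e3 : (A - C) * R ≤ (A - C) * P := by
      nlinarith [mul_nonneg (by linarith : 0 ≤ B - C) (by linarith : 0 ≤ -Q), mul_nonneg (by linarith : 0 ≤ B - C) hP]
    exact le_of_mul_le_mul_left e3 (by linarith)
  refine ⟨hab, hQ, hRP, hP', ?_⟩
  have hB0 : 0 ≤ B := le_trans hC hBC
  have e4 : B * Q ≤ 0 := mul_nonpos_of_nonneg_of_nonpos hB0 hQ
  have e5 : C * R ≤ C * P := mul_le_mul_of_nonneg_left hRP hC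
  nlinarith

end Pool.Agent.Lib.MP_5e7226_co.TR
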