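import Pool.Agent.Lib.MP_5e7226_co.DX.Defs
import Pool.Agent.Lib.MP_5e7226_co.TR.Ineq

set_option autoImplicit false

/-! Bodies with the symmetries of the rotation group of a tetrahedron: definitions. -/

namespace Pool.Agent.Lib.MP_5e7226_co.TR

open Pool.Agent.Lib.MP_5e7226_co.DX (Works swp)

/-- A sign. -/
def Sg (e : ℝ) : Prop := e = 1 ∨ e = -1

theorem Sg.mul {a b : ℝ} (ha : Sg a) (hb : Sg b) : Sg (a * b) := by
  rcases ha with h | h <;> rcases hb with h' | h' <;> rw [h, h'] <;> unfold Sg <;> norm_num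

theorem Sg.sq {a : ℝ} (ha : Sg a) : a * a = 1 := by
  rcases ha with h | h <;> rw [h] <;> norm_num

theorem Sg.neg {a : ℝ} (ha : Sg a) : Sg (-a) := by
  rcases ha with h | h <;> rw [h] <;> unfold Sg <;> norm_num

theorem sg_one : Sg 1 := Or.inl rfl

theorem sg_neg_one : Sg (-1) := Or.inr rfl

/-- A compact set of dual pairs, invariant under even sign changes and cyclic permutations. -/
structure DualT (G : Set ((Fin 3 → ℝ) × (Fin 3 → ℝ))) : Prop where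
  compact : IsCompact G
  one : ∀ p ∈ G, p.2 0 * p.1 0 + p.2 1 * p.1 1 + p.2 2 * p.1 2 = 1
  le : ∀ p ∈ G, ∀ q ∈ G, ∀ e0 e1 e2 : ℝ, Sg e0 → Sg e1 → Sg e2 → e0 * e1 * e2 = 1 →
    p.2 0 * (e0 * q.1 0) + p.2 1 * (e1 * q.1 1) + p.2 2 * (e2 * q.1 2) ≤ 1 ∧
    p.2 0 * (e0 * q.1 1) + p.2 1 * (e1 * q.1 2) + p.2 2 * (e2 * q.1 0) ≤ 1 ∧
    p.2 0 * (e0 * q.1 2) + p.2 1 * (e1 * q.1 0) + p.2 2 * (e2 * q.1 1) ≤ 1

/-- The case of the cube `[-h, h]^3`. -/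
def CubeT (G : Set ((Fin 3 → ℝ) × (Fin 3 → ℝ))) (h : ℝ) : Prop :=
  0 < h ∧ (∀ q ∈ G, ∀ i, |q.1 i| ≤ h) ∧ (∃ q ∈ G, (∀ i, |q.1 i| = h) ∧ q.1 0 * q.1 1 * q.1 2 < 0) ∧
    ∃ q ∈ G, (∀ i, |q.1 i| = h) ∧ 0 < q.1 0 * q.1 1 * q.1 2

theorem fin3_cases : ∀ i j k : Fin 3, i ≠ j → j ≠ k → i ≠ k →
    (i = 0 ∧ j = 1 ∧ k = 2) ∨ (i = 1 ∧ j = 2 ∧ k = 0) ∨ (i = 2 ∧ j = 0 ∧ k = 1) ∨
    (i = 0 ∧ j = 2 ∧ k = 1) ∨ (i = 2 ∧ j = 1 ∧ k = 0) ∨ (i = 1 ∧ j = 0 ∧ k = 2) := by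
  decide

/-- The condition of `DualT` for a rotation of three distinct indices. -/
theorem DualT.rot {G : Set ((Fin 3 → ℝ) × (Fin 3 → ℝ))} (hG : DualT G) {p q : (Fin 3 → ℝ) × (Fin 3 → ℝ)}
    (hp : p ∈ G) (hq : q ∈ G) {i j k : Fin 3} (hij : i ≠ j) (hjk : j ≠ k) (hik : i ≠ k) {e1 e2 e3 : ℝ}
    (h1 : Sg e1) (h2 : Sg e2) (h3 : Sg e3) (he : e1 * e2 * e3 = 1) :
    p.2 i * (e1 * q.1 j) + p.2 j * (e2 * q.1 k) + p.2 k * (e3 * q.1 i) ≤ 1 := by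
  rcases fin3_cases i j k hij hjk hik with ⟨rfl, rfl, rfl⟩ | ⟨rfl, rfl, rfl⟩ | ⟨rfl, rfl, rfl⟩ |
    ⟨rfl, rfl, rfl⟩ | ⟨rfl, rfl, rfl⟩ | ⟨rfl, rfl, rfl⟩
  · have := (hG.le p hp q hq e1 e2 e3 h1 h2 h3 he).2.1
    linarith
  · have := (hG.le p hp q hq e3 e1 e2 h3 h1 h2 (by rw [← he]; ring)).2.1
    linarith
  · have := (hG.le p hp q hq e2 e3 e1 h2 h3 h1 (by rw [← he]; ring)).2.1
    linarith
  · have := (hG.le p hp q hq e1 e3 e2 h1 h3 h2 (by rw [← he]; ring)).2.2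
    linarith
  · have := (hG.le p hp q hq e3 e2 e1 h3 h2 h1 (by rw [← he]; ring)).2.2
    linarith
  · have := (hG.le p hp q hq e2 e1 e3 h2 h1 h3 (by rw [← he]; ring)).2.2
    linarith

/-- The condition of `DualT` for the sign changes. -/
theorem DualT.sgn {G : Set ((Fin 3 → ℝ) × (Fin 3 → ℝ))} (hG : DualT G) {p q : (Fin 3 → ℝ) × (Fin 3 → ℝ)}
    (hp : p ∈ G) (hq : q ∈ G) {i j k : Fin 3} (hij : i ≠ j) (hjk : j ≠ k) (hik : i ≠ k) {e1 e2 e3 : ℝ}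
    (h1 : Sg e1) (h2 : Sg e2) (h3 : Sg e3) (he : e1 * e2 * e3 = 1) :
    p.2 i * (e1 * q.1 i) + p.2 j * (e2 * q.1 j) + p.2 k * (e3 * q.1 k) ≤ 1 := by
  rcases fin3_cases i j k hij hjk hik with ⟨rfl, rfl, rfl⟩ | ⟨rfl, rfl, rfl⟩ | ⟨rfl, rfl, rfl⟩ |
    ⟨rfl, rfl, rfl⟩ | ⟨rfl, rfl, rfl⟩ | ⟨rfl, rfl, rfl⟩
  · have := (hG.le p hp q hq e1 e2 e3 h1 h2 h3 he).1
    linarith
  · have := (hG.le p hp q hq e3 e1 e2 h3 h1 h2 (by rw [← he]; ring)).1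
    linarith
  · have := (hG.le p hp q hq e2 e3 e1 h2 h3 h1 (by rw [← he]; ring)).1
    linarith
  · have := (hG.le p hp q hq e1 e3 e2 h1 h3 h2 (by rw [← he]; ring)).1
    linarith
  · have := (hG.le p hp q hq e3 e2 e1 h3 h2 h1 (by rw [← he]; ring)).1
    linarith
  · have := (hG.le p hp q hq e2 e1 e3 h2 h1 h3 (by rw [← he]; ring)).1
    linarith

theorem DualT.one' {G : Set ((Fin 3 → ℝ) × (Fin 3 → ℝ))} (hG : DualT G) {p : (Fin 3 → ℝ) × (Fin 3 → ℝ)}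
    (hp : p ∈ G) {i j k : Fin 3} (hij : i ≠ j) (hjk : j ≠ k) (hik : i ≠ k) :
    p.2 i * p.1 i + p.2 j * p.1 j + p.2 k * p.1 k = 1 := by
  have := hG.one p hp
  rcases fin3_cases i j k hij hjk hik with ⟨rfl, rfl, rfl⟩ | ⟨rfl, rfl, rfl⟩ | ⟨rfl, rfl, rfl⟩ |
    ⟨rfl, rfl, rfl⟩ | ⟨rfl, rfl, rfl⟩ | ⟨rfl, rfl, rfl⟩ <;> linarith

/-- The sorted inequalities at a point of `G`. -/
theorem DualT.six {G : Set ((Fin 3 → ℝ) × (Fin 3 → ℝ))} (hG : DualT G) {x u : Fin 3 → ℝ} (hx : (x, u) ∈ G)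
    {s : Fin 3 → ℝ} (hs : ∀ i, Sg (s i)) (hsx : ∀ i, 0 ≤ s i * x i) {i j k : Fin 3} (hij : i ≠ j) (hjk : j ≠ k)
    (hik : i ≠ k) (h1 : s j * x j ≤ s i * x i) (h2 : s k * x k ≤ s j * x j) :
    Six (s i * x i) (s j * x j) (s k * x k) (s i * u i) (s j * u j) (s k * u k) := by
  have qi := (hs i).sq
  have qj := (hs j).sq
  have qk := (hs k).sq
  have hone : s i * x i * (s i * u i) + s j * x j * (s j * u j) + s k * x k * (s k * u k) = 1 := by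
    have h := hG.one' hx hij hjk hik
    simp only at h
    calc _ = (s i * s i) * (u i * x i) + (s j * s j) * (u j * x j) + (s k * s k) * (u k * x k) := by ring
      _ = 1 := by rw [qi, qj, qk]; linarith
  have hsg : ∀ e1 e2 e3 : ℝ, Sg e1 → Sg e2 → Sg e3 → e1 * e2 * e3 = 1 →
      e1 * (s i * x i * (s i * u i)) + e2 * (s j * x j * (s j * u j)) + e3 * (s k * x k * (s k * u k)) ≤ 1 := by
    intro e1 e2 e3 g1 g2 g3 he
    have h := hG.sgn hx hx hij hjk hik g1 g2 g3 he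
    simp only at h
    calc _ = (s i * s i) * (u i * (e1 * x i)) + (s j * s j) * (u j * (e2 * x j)) +
          (s k * s k) * (u k * (e3 * x k)) := by ring
      _ ≤ 1 := by rw [qi, qj, qk]; linarith
  have hr1 : ∀ e1 e2 e3 : ℝ, Sg e1 → Sg e2 → Sg e3 → e1 * e2 * e3 = 1 →
      e1 * (s j * x j * (s i * u i)) + e2 * (s k * x k * (s j * u j)) + e3 * (s i * x i * (s k * u k)) ≤ 1 := by
    intro e1 e2 e3 g1 g2 g3 he
    have h := hG.rot hx hx hij hjk hik (g1.mul ((hs i).mul (hs j))) (g2.mul ((hs j).mul (hs k)))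
      (g3.mul ((hs k).mul (hs i))) (by
        calc _ = (e1 * e2 * e3) * ((s i * s i) * (s j * s j) * (s k * s k)) := by ring
          _ = 1 := by rw [qi, qj, qk, he]; norm_num)
    simp only at h
    linarith
  have hr2 : ∀ e1 e2 e3 : ℝ, Sg e1 → Sg e2 → Sg e3 → e1 * e2 * e3 = 1 →
      e1 * (s k * x k * (s i * u i)) + e2 * (s i * x i * (s j * u j)) + e3 * (s j * x j * (s k * u k)) ≤ 1 := by
    intro e1 e2 e3 g1 g2 g3 he
    have h := hG.rot hx hx hik hjk.symm hij (g1.mul ((hs i).mul (hs k))) (g3.mul ((hs k).mul (hs j)))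
      (g2.mul ((hs j).mul (hs i))) (by
        calc _ = (e1 * e2 * e3) * ((s i * s i) * (s j * s j) * (s k * s k)) := by ring
          _ = 1 := by rw [qi, qj, qk, he]; norm_num)
    simp only at h
    linarith
  have p1 := sg_one
  have m1 := sg_neg_one
  refine ⟨h1, h2, hsx k, hone, ?_, ?_, ?_, ?_, ?_, ?_, ?_, ?_, ?_⟩
  · have := hsg (-1) (-1) 1 m1 m1 p1 (by norm_num)
    linarith
  · have := hsg (-1) 1 (-1) m1 p1 m1 (by norm_num)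
    linarith
  · have := hsg 1 (-1) (-1) p1 m1 m1 (by norm_num)
    linarith
  · have := hr1 1 1 1 p1 p1 p1 (by norm_num)
    linarith
  · have := hr1 1 (-1) (-1) p1 m1 m1 (by norm_num)
    linarith
  · have := hr1 (-1) 1 (-1) m1 p1 m1 (by norm_num)
    linarith
  · have := hr2 1 1 1 p1 p1 p1 (by norm_num)
    linarith
  · have := hr2 (-1) 1 (-1) m1 p1 m1 (by norm_num)
    linarith
  · have := hr2 (-1) (-1) 1 m1 m1 p1 (by norm_num)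
    linarith

end Pool.Agent.Lib.MP_5e7226_co.TR
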