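import Pool.Agent.Lib.MP_5e7226_co.TR.Core
import Pool.Agent.Lib.MP_5e7226_co.HX.Geo
import Pool.Agent.Lib.MP_5e7226_co.HX.Pts
import Pool.Agent.Lib.MP_5e7226_co.RG.Strict

set_option autoImplicit false

/-! Bodies with the rotations of a tetrahedron: geometry. -/

namespace Pool.Agent.Lib.MP_5e7226_co.TR

open Finset
open Pool.Agent.Lib.MP_5e7226_co.DX (Works swp co fu GK pairing sum_co co_sum)
open Pool.Agent.Lib.MP_5e7226_co.HX (Body compact_GK one_GK le_GK illum_dirs sep_of_works lt_max)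
open Pool.Agent.Lib.MP_5e7226_co.RG (IsCrossBody IsAffineCube IlluminatedBy SeparatedBy Good bas bas_apply)

/-- The space. -/
abbrev E3 := EuclideanSpace ℝ (Fin 3)

/-- The point with the coordinates `x` relative to `o`. -/
noncomputable def pt (b : Module.Basis (Fin 3) ℝ E3) (o : E3) (x : Fin 3 → ℝ) : E3 := o + ∑ i, x i • b i

/-- The rotations of a tetrahedron, in coordinates. -/
structure SymB (b : Module.Basis (Fin 3) ℝ E3) (o : E3) (K : Set E3) : Prop where
  flip : ∀ x : Fin 3 → ℝ, pt b o x ∈ K → pt b o ![x 0, -x 1, -x 2] ∈ K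
  cyc : ∀ x : Fin 3 → ℝ, pt b o x ∈ K → pt b o ![x 2, x 0, x 1] ∈ K

variable {b : Module.Basis (Fin 3) ℝ E3} {o : E3} {K : Set E3}

theorem pt_co (b : Module.Basis (Fin 3) ℝ E3) (o p : E3) : pt b o (co b o p) = p := by
  unfold pt
  rw [sum_co]
  simp

theorem co_pt (b : Module.Basis (Fin 3) ℝ E3) (o : E3) (x : Fin 3 → ℝ) : co b o (pt b o x) = x :=
  co_sum b o x

theorem vec3 (x : Fin 3 → ℝ) {a c e : ℝ} (h0 : x 0 = a) (h1 : x 1 = c) (h2 : x 2 = e) : x = ![a, c, e] := by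
  funext i
  fin_cases i
  · exact h0
  · exact h1
  · exact h2

theorem SymB.cyc2 (h : SymB b o K) (x : Fin 3 → ℝ) (hx : pt b o x ∈ K) : pt b o ![x 1, x 2, x 0] ∈ K := by
  have h1 := h.cyc ![x 2, x 0, x 1] (h.cyc x hx)
  simp only [Matrix.cons_val_zero, Matrix.cons_val_one, Matrix.cons_val] at h1
  exact h1

theorem SymB.flip1 (h : SymB b o K) (x : Fin 3 → ℝ) (hx : pt b o x ∈ K) : pt b o ![-x 0, x 1, -x 2] ∈ K := by
  have h1 := h.flip ![x 1, x 2, x 0] (h.cyc2 x hx)
  simp only [Matrix.cons_val_zero, Matrix.cons_val_one, Matrix.cons_val] at h1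
  have h2 := h.cyc _ h1
  simp only [Matrix.cons_val_zero, Matrix.cons_val_one, Matrix.cons_val] at h2
  exact h2

theorem SymB.flip2 (h : SymB b o K) (x : Fin 3 → ℝ) (hx : pt b o x ∈ K) : pt b o ![-x 0, -x 1, x 2] ∈ K := by
  have h1 := h.flip ![x 2, x 0, x 1] (h.cyc x hx)
  simp only [Matrix.cons_val_zero, Matrix.cons_val_one, Matrix.cons_val] at h1
  have h2 := h.cyc2 _ h1
  simp only [Matrix.cons_val_zero, Matrix.cons_val_one, Matrix.cons_val] at h2
  exact h2

theorem SymB.sg (h : SymB b o K) {e0 e1 e2 : ℝ} (h0 : Sg e0) (h1 : Sg e1) (h2 : Sg e2) (he : e0 * e1 * e2 = 1)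
    (x : Fin 3 → ℝ) (hx : pt b o x ∈ K) : pt b o ![e0 * x 0, e1 * x 1, e2 * x 2] ∈ K := by
  rcases h0 with rfl | rfl <;> rcases h1 with rfl | rfl <;> rcases h2 with rfl | rfl
  · have : (![1 * x 0, 1 * x 1, 1 * x 2] : Fin 3 → ℝ) = x := by
      symm
      apply vec3 <;> ring
    rw [this]
    exact hx
  · norm_num at he
  · norm_num at he
  · have := h.flip _ hx
    simp only [one_mul, neg_mul]
    exact this
  · norm_num at he
  · have := h.flip1 _ hx
    simp only [one_mul, neg_mul]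
    exact this
  · have := h.flip2 _ hx
    simp only [one_mul, neg_mul]
    exact this
  · norm_num at he

theorem map_pt (f : E3 →L[ℝ] ℝ) (x : Fin 3 → ℝ) :
    f (pt b o x) = f o + (x 0 * f (b 0) + x 1 * f (b 1) + x 2 * f (b 2)) := by
  unfold pt
  rw [map_add, map_sum, Fin.sum_univ_three]
  simp only [map_smul, smul_eq_mul]

theorem dualT_GK (hK : Body o K) (h : SymB b o K) : DualT (GK b o K) := by
  refine ⟨compact_GK b hK, ?_, ?_⟩
  · intro p hp
    have := one_GK b p hp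
    rw [Fin.sum_univ_three] at this
    exact this
  · rintro _ ⟨_, _, f, hf, _, rfl⟩ _ ⟨p, hp, _, _, _, rfl⟩ e0 e1 e2 h0 h1 h2 he
    have hx : pt b o (co b o p) ∈ K := by
      rw [pt_co]
      exact hp
    have a1 := hf _ (h.sg h0 h1 h2 he _ hx)
    have a2 := hf _ (h.sg h0 h1 h2 he _ (h.cyc2 _ hx))
    have a3 := hf _ (h.sg h0 h1 h2 he _ (h.cyc _ hx))
    rw [map_pt] at a1 a2 a3
    simp only [Matrix.cons_val_zero, Matrix.cons_val_one, Matrix.cons_val] at a1 a2 a3
    simp only [fu]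
    refine ⟨?_, ?_, ?_⟩
    · linarith
    · linarith
    · linarith

/-- The centre is an interior point. -/
theorem center (hconv : Convex ℝ K) (hcomp : IsCompact K) (hint : (interior K).Nonempty) (h : SymB b o K) :
    Body o K := by
  refine ⟨hconv, hcomp, ?_⟩
  by_contra hn
  obtain ⟨f, hf⟩ := geometric_hahn_banach_open_point hconv.interior isOpen_interior hn
  obtain ⟨p, hp⟩ := hint
  have hcl : closure (interior K) = K := by
    rw [hconv.closure_interior_eq_closure_of_nonempty_interior ⟨p, hp⟩]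
    exact hcomp.isClosed.closure_eq
  have hle : ∀ y ∈ K, f y ≤ f o := by
    intro y hy
    rw [← hcl] at hy
    have h3 : closure (interior K) ⊆ {y | f y ≤ f o} :=
      closure_minimal (fun z hz => (hf z hz).le) (isClosed_le f.continuous continuous_const)
    exact h3 hy
  have hx : pt b o (co b o p) ∈ K := by rw [pt_co]; exact interior_subset hp
  have h0 : f (pt b o (co b o p)) < f o := by rw [pt_co]; exact hf p hp
  have h1 := hle _ (h.flip _ hx)
  have h2 := hle _ (h.flip1 _ hx)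
  have h3 := hle _ (h.flip2 _ hx)
  rw [map_pt] at h0 h1 h2 h3
  simp only [Matrix.cons_val_zero, Matrix.cons_val_one, Matrix.cons_val] at h1 h2 h3
  linarith

/-- A functional attains its maximum over `K` at a point of a dual pair. -/
theorem exists_pair (b : Module.Basis (Fin 3) ℝ E3) (hK : Body o K) {f : E3 →L[ℝ] ℝ} (hf : f ≠ 0) :
    ∃ p ∈ K, (∀ y ∈ K, f y ≤ f p) ∧ f o < f p ∧ (co b o p, fu b ((f p - f o)⁻¹ • f)) ∈ GK b o K := by
  have hne : K.Nonempty := hK.int.mono interior_subset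
  obtain ⟨p, hp, hmax⟩ := hK.compact.exists_isMaxOn hne f.continuous.continuousOn
  have hmax' : ∀ y ∈ K, f y ≤ f p := fun y hy => hmax hy
  have hlt := lt_max hK hf hmax'
  have hc : 0 < f p - f o := by linarith
  refine ⟨p, hp, hmax', hlt, p, hp, (f p - f o)⁻¹ • f, ?_, ?_, rfl⟩
  · intro y hy
    have h3 := hmax' y hy
    change (f p - f o)⁻¹ * f y - (f p - f o)⁻¹ * f o ≤ 1
    rw [← mul_sub, inv_mul_le_iff₀ hc]
    linarith
  · change (f p - f o)⁻¹ * f p - (f p - f o)⁻¹ * f o = 1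
    rw [← mul_sub]
    exact inv_mul_cancel₀ hc.ne'

/-- The coordinate functional. -/
noncomputable def cf (b : Module.Basis (Fin 3) ℝ E3) (i : Fin 3) : E3 →L[ℝ] ℝ :=
  LinearMap.toContinuousLinearMap (b.coord i)

theorem cf_sub (b : Module.Basis (Fin 3) ℝ E3) (o : E3) (i : Fin 3) (y : E3) :
    cf b i y - cf b i o = co b o y i := by
  rw [← map_sub]
  rfl

theorem cf_ne (b : Module.Basis (Fin 3) ℝ E3) (i : Fin 3) : cf b i ≠ 0 := by
  intro h
  have h1 : cf b i (b i) = 1 := by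
    unfold cf
    rw [LinearMap.coe_toContinuousLinearMap', Module.Basis.coord_apply, Module.Basis.repr_self,
      Finsupp.single_eq_same]
  rw [h] at h1
  simp at h1

/-- All coordinates of `K` are bounded by the bound for the boundary points. -/
theorem bound_of_GK (hK : Body o K) {h : ℝ} (hb : ∀ q ∈ GK b o K, ∀ i, |q.1 i| ≤ h) {y : E3} (hy : y ∈ K)
    (i : Fin 3) : |co b o y i| ≤ h := by
  rw [abs_le]
  constructor
  · obtain ⟨p, hp, hmax, -, hG⟩ := exists_pair b hK (f := -cf b i) (by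
      rw [neg_ne_zero]
      exact cf_ne b i)
    have h1 := hb _ hG i
    simp only at h1
    have h2 := hmax y hy
    simp only [FunLike.coe_neg, Pi.neg_apply] at h2
    have e1 := cf_sub b o i y
    have e2 := cf_sub b o i p
    have h3 := (abs_le.1 h1).1
    linarith
  · obtain ⟨p, hp, hmax, -, hG⟩ := exists_pair b hK (f := cf b i) (cf_ne b i)
    have h1 := hb _ hG i
    simp only at h1
    have h2 := hmax y hy
    have e1 := cf_sub b o i y
    have e2 := cf_sub b o i p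
    have h3 := (abs_le.1 h1).2
    linarith

theorem pt_mem_of_GK {q : (Fin 3 → ℝ) × (Fin 3 → ℝ)} (hq : q ∈ GK b o K) : pt b o q.1 ∈ K := by
  obtain ⟨p, hp, f, -, -, rfl⟩ := hq
  rw [pt_co]
  exact hp

theorem pt_comb (b : Module.Basis (Fin 3) ℝ E3) (o : E3) (s : ℝ) (c c' : Fin 3 → ℝ) :
    pt b o (fun i => s * c i + (1 - s) * c' i) = s • pt b o c + (1 - s) • pt b o c' := by
  unfold pt
  simp only [Fin.sum_univ_three]
  module

theorem conv (hK : Convex ℝ K) {c c' : Fin 3 → ℝ} (h : pt b o c ∈ K) (h' : pt b o c' ∈ K) {s : ℝ} (h0 : 0 ≤ s)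
    (h1 : s ≤ 1) : pt b o (fun i => s * c i + (1 - s) * c' i) ∈ K := by
  rw [pt_comb]
  exact hK h h' h0 (by linarith) (by ring)

theorem conv3 (hK : Convex ℝ K) {c c' y : Fin 3 → ℝ} (h : pt b o c ∈ K) (h' : pt b o c' ∈ K) {s : ℝ} (h0 : 0 ≤ s)
    (h1 : s ≤ 1) (y0 : y 0 = s * c 0 + (1 - s) * c' 0) (y1 : y 1 = s * c 1 + (1 - s) * c' 1)
    (y2 : y 2 = s * c 2 + (1 - s) * c' 2) : pt b o y ∈ K := by
  have e : y = fun i => s * c i + (1 - s) * c' i := by
    funext i
    fin_cases i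
    · exact y0
    · exact y1
    · exact y2
  rw [e]
  exact conv hK h h' h0 h1

/-- All the sign vectors, from one of each parity. -/
theorem signs_mem (h : SymB b o K) {t : ℝ} (ht : 0 < t) {p : Fin 3 → ℝ} (hp : pt b o p ∈ K)
    (hpt : ∀ i, |p i| = t) (hpp : p 0 * p 1 * p 2 < 0) {q : Fin 3 → ℝ} (hq : pt b o q ∈ K)
    (hqt : ∀ i, |q i| = t) (hqq : 0 < q 0 * q 1 * q 2) {s : Fin 3 → ℝ} (hs : ∀ i, Sg (s i)) :
    pt b o (fun i => s i * t) ∈ K := by
  have key : ∀ r : Fin 3 → ℝ, pt b o r ∈ K → (∀ i, |r i| = t) → 0 < (s 0 * s 1 * s 2) * (r 0 * r 1 * r 2) →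
      pt b o (fun i => s i * t) ∈ K := by
    intro r hr hrt hpos
    obtain ⟨σ, hσ, hσr⟩ := exists_sg r
    have hri : ∀ i, r i = σ i * t := by
      intro i
      have h1 := hσr i
      have h2 : |σ i * r i| = t := by
        rw [← hrt i, abs_mul]
        rcases hσ i with h' | h' <;> rw [h'] <;> simp
      rw [abs_of_nonneg h1] at h2
      rw [← h2, ← mul_assoc, (hσ i).sq, one_mul]
    have hprod : (s 0 * σ 0) * (s 1 * σ 1) * (s 2 * σ 2) = 1 := by
      have hS : Sg ((s 0 * σ 0) * (s 1 * σ 1) * (s 2 * σ 2)) :=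
        (((hs 0).mul (hσ 0)).mul ((hs 1).mul (hσ 1))).mul ((hs 2).mul (hσ 2))
      rcases hS with h' | h'
      · exact h'
      · exfalso
        rw [hri 0, hri 1, hri 2] at hpos
        have e : (s 0 * s 1 * s 2) * (σ 0 * t * (σ 1 * t) * (σ 2 * t)) =
            ((s 0 * σ 0) * (s 1 * σ 1) * (s 2 * σ 2)) * (t * t * t) := by ring
        rw [e, h'] at hpos
        have := mul_pos (mul_pos ht ht) ht
        linarith
    have h1 := h.sg ((hs 0).mul (hσ 0)) ((hs 1).mul (hσ 1)) ((hs 2).mul (hσ 2)) hprod r hr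
    have h2 : (fun i => s i * t) = ![s 0 * σ 0 * r 0, s 1 * σ 1 * r 1, s 2 * σ 2 * r 2] := by
      apply vec3
      · rw [hri 0]
        calc s 0 * t = s 0 * (σ 0 * σ 0) * t := by rw [(hσ 0).sq, mul_one]
          _ = _ := by ring
      · rw [hri 1]
        calc s 1 * t = s 1 * (σ 1 * σ 1) * t := by rw [(hσ 1).sq, mul_one]
          _ = _ := by ring
      · rw [hri 2]
        calc s 2 * t = s 2 * (σ 2 * σ 2) * t := by rw [(hσ 2).sq, mul_one]
          _ = _ := by ring
    rw [h2]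
    exact h1
  have hS : Sg (s 0 * s 1 * s 2) := ((hs 0).mul (hs 1)).mul (hs 2)
  rcases hS with h' | h'
  · exact key q hq hqt (by rw [h']; linarith)
  · exact key p hp hpt (by rw [h']; linarith)

/-- The cube. -/
theorem cube_end (hK : Body o K) (hS : SymB b o K) {h : ℝ} (hc : CubeT (GK b o K) h) : IsAffineCube K := by
  obtain ⟨hh, hmax, ⟨p, hp, hpt, hpp⟩, ⟨q, hq, hqt, hqq⟩⟩ := hc
  have hv : ∀ s : Fin 3 → ℝ, (∀ i, Sg (s i)) → pt b o (fun i => s i * h) ∈ K := fun s hs =>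
    signs_mem hS hh (pt_mem_of_GK hp) hpt hpp (pt_mem_of_GK hq) hqt hqq hs
  have hli : LinearIndependent ℝ (fun i => h • b i) := by
    have := b.linearIndependent.units_smul (fun _ => Units.mk0 h hh.ne')
    exact this
  have hsum : ∀ c : Fin 3 → ℝ, o + ∑ i, c i • (h • b i) = pt b o (fun i => c i * h) := by
    intro c
    unfold pt
    simp only [smul_smul]
  refine ⟨o, fun i => h • b i, hli, ?_⟩
  ext y
  constructor
  · intro hy
    refine ⟨fun i => co b o y i / h, ?_, ?_⟩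
    · intro i
      rw [abs_div, abs_of_pos hh, div_le_one hh]
      exact bound_of_GK hK hmax hy i
    · rw [hsum]
      have : (fun i => co b o y i / h * h) = co b o y := by
        funext i
        field_simp
      rw [this, pt_co]
  · rintro ⟨c, hc, rfl⟩
    rw [hsum]
    have hb : ∀ m, 0 ≤ (1 + c m) / 2 ∧ (1 + c m) / 2 ≤ 1 := fun m => by
      have := abs_le.1 (hc m)
      constructor <;> linarith
    have hv' : ∀ a0 a1 a2 : ℝ, Sg a0 → Sg a1 → Sg a2 → pt b o ![a0 * h, a1 * h, a2 * h] ∈ K := by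
      intro a0 a1 a2 h0 h1 h2
      have := hv ![a0, a1, a2] (by
        intro i
        fin_cases i
        · exact h0
        · exact h1
        · exact h2)
      have e : (fun i => (![a0, a1, a2] : Fin 3 → ℝ) i * h) = ![a0 * h, a1 * h, a2 * h] := by
        apply vec3 <;> rfl
      rw [e] at this
      exact this
    have s2 : ∀ a0 a1 : ℝ, Sg a0 → Sg a1 → pt b o ![a0 * h, a1 * h, c 2 * h] ∈ K := by
      intro a0 a1 h0 h1
      refine conv3 hK.convex (hv' a0 a1 1 h0 h1 sg_one) (hv' a0 a1 (-1) h0 h1 sg_neg_one) (hb 2).1 (hb 2).2 ?_ ?_ ?_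
      · show a0 * h = (1 + c 2) / 2 * (a0 * h) + (1 - (1 + c 2) / 2) * (a0 * h)
        ring
      · show a1 * h = (1 + c 2) / 2 * (a1 * h) + (1 - (1 + c 2) / 2) * (a1 * h)
        ring
      · show c 2 * h = (1 + c 2) / 2 * (1 * h) + (1 - (1 + c 2) / 2) * (-1 * h)
        ring
    have s1 : ∀ a0 : ℝ, Sg a0 → pt b o ![a0 * h, c 1 * h, c 2 * h] ∈ K := by
      intro a0 h0
      refine conv3 hK.convex (s2 a0 1 h0 sg_one) (s2 a0 (-1) h0 sg_neg_one) (hb 1).1 (hb 1).2 ?_ ?_ ?_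
      · show a0 * h = (1 + c 1) / 2 * (a0 * h) + (1 - (1 + c 1) / 2) * (a0 * h)
        ring
      · show c 1 * h = (1 + c 1) / 2 * (1 * h) + (1 - (1 + c 1) / 2) * (-1 * h)
        ring
      · show c 2 * h = (1 + c 1) / 2 * (c 2 * h) + (1 - (1 + c 1) / 2) * (c 2 * h)
        ring
    have s0 : pt b o ![c 0 * h, c 1 * h, c 2 * h] ∈ K := by
      refine conv3 hK.convex (s1 1 sg_one) (s1 (-1) sg_neg_one) (hb 0).1 (hb 0).2 ?_ ?_ ?_
      · show c 0 * h = (1 + c 0) / 2 * (1 * h) + (1 - (1 + c 0) / 2) * (-1 * h)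
        ring
      · show c 1 * h = (1 + c 0) / 2 * (c 1 * h) + (1 - (1 + c 0) / 2) * (c 1 * h)
        ring
      · show c 2 * h = (1 + c 0) / 2 * (c 2 * h) + (1 - (1 + c 0) / 2) * (c 2 * h)
        ring
    have e : (fun i => c i * h) = ![c 0 * h, c 1 * h, c 2 * h] := by
      apply vec3 <;> rfl
    rw [e]
    exact s0

end Pool.Agent.Lib.MP_5e7226_co.TR
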